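import Pool.Agent.H300R2.FB.Defs
import Pool.Agent.H442R2.EHI.PolySq

/-! FB, task F8: perturbation of the arguments depending on `d` (helper619) -/

namespace Pool.Agent.H619R2.FB

open Finset
open Pool.Agent.H469R2.NK (e norm_e e_add conj_e e_zero)
open Pool.Agent.H442R2.EHI

/-- Cauchy-Schwarz on an interval -/
lemma cs_int (f : ℝ → ℝ) (hf : Continuous f) (p q : ℝ) (hpq : p ≤ q) :
    (∫ u in p..q, f u) ^ 2 ≤ (q - p) * ∫ u in p..q, f u ^ 2 := by
  rcases hpq.eq_or_lt with h | h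
  · subst h; simp
  · have hl : 0 < q - p := by linarith
    set I := ∫ u in p..q, f u with hI
    set m := I / (q - p) with hm
    have h0 : 0 ≤ ∫ u in p..q, (f u - m) ^ 2 :=
      intervalIntegral.integral_nonneg hpq fun u _ => sq_nonneg _
    have h1 : ∫ u in p..q, (f u - m) ^ 2 = (∫ u in p..q, f u ^ 2) - 2 * m * I + m ^ 2 * (q - p) := by
      have e1 : ∀ u, (f u - m) ^ 2 = f u ^ 2 - 2 * m * f u + m ^ 2 := fun u => by ring
      simp_rw [e1]
      rw [intervalIntegral.integral_add, intervalIntegral.integral_sub,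
        intervalIntegral.integral_const_mul, intervalIntegral.integral_const, smul_eq_mul]
      · ring
      · exact (hf.pow 2).intervalIntegrable _ _
      · exact (continuous_const.mul hf).intervalIntegrable _ _
      · exact ((hf.pow 2).sub (continuous_const.mul hf)).intervalIntegrable _ _
      · exact continuous_const.intervalIntegrable _ _
    have h2 : (q - p) * ((∫ u in p..q, f u ^ 2) - 2 * m * I + m ^ 2 * (q - p)) =
        (q - p) * (∫ u in p..q, f u ^ 2) - I ^ 2 := by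
      rw [hm]
      field_simp
      ring
    rw [h1] at h0
    have h3 := mul_nonneg hl.le h0
    rw [h2] at h3
    linarith

/-- one increment -/
lemma incr (P : ℝ → ℂ) (hP : ContDiff ℝ 1 P) (y s s1 : ℝ) (hs : |s| ≤ s1) :
    ‖P (y + s) - P y‖ ^ 2 ≤ s1 * ∫ u in (y - s1)..(y + s1), ‖deriv P u‖ ^ 2 := by
  have hs1 : 0 ≤ s1 := (abs_nonneg _).trans hs
  have hPd : Differentiable ℝ P := hP.differentiable one_ne_zero
  have hPdc : Continuous (deriv P) := hP.continuous_deriv le_rfl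
  have key : ∀ p q : ℝ, p ≤ q → y - s1 ≤ p → q ≤ y + s1 → q - p ≤ s1 →
      ‖P q - P p‖ ^ 2 ≤ s1 * ∫ u in (y - s1)..(y + s1), ‖deriv P u‖ ^ 2 := by
    intro p q hpq h1 h2 h3
    have e1 : ∫ u in p..q, deriv P u = P q - P p :=
      intervalIntegral.integral_deriv_eq_sub (fun x _ => hPd x) (hPdc.intervalIntegrable _ _)
    have e2 : ‖P q - P p‖ ≤ ∫ u in p..q, ‖deriv P u‖ := by
      rw [← e1]
      exact intervalIntegral.norm_integral_le_integral_norm hpq
    have e3 : ∫ u in p..q, ‖deriv P u‖ ^ 2 ≤ ∫ u in (y - s1)..(y + s1), ‖deriv P u‖ ^ 2 := by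
      refine intervalIntegral.integral_mono_interval h1 hpq h2 ?_ ?_
      · exact Filter.Eventually.of_forall fun y => by positivity
      · exact (hPdc.norm.pow 2).intervalIntegrable _ _
    have e4 : 0 ≤ ∫ u in p..q, ‖deriv P u‖ ^ 2 :=
      intervalIntegral.integral_nonneg hpq fun u _ => by positivity
    calc ‖P q - P p‖ ^ 2 ≤ (∫ u in p..q, ‖deriv P u‖) ^ 2 :=
          pow_le_pow_left₀ (norm_nonneg _) e2 2
      _ ≤ (q - p) * ∫ u in p..q, ‖deriv P u‖ ^ 2 := cs_int _ hPdc.norm p q hpq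
      _ ≤ s1 * ∫ u in p..q, ‖deriv P u‖ ^ 2 := mul_le_mul_of_nonneg_right h3 e4
      _ ≤ _ := mul_le_mul_of_nonneg_left e3 hs1
  rw [abs_le] at hs
  rcases le_total 0 s with h | h
  · exact key y (y + s) (by linarith) (by linarith) (by linarith) (by linarith)
  · rw [norm_sub_rev]
    exact key (y + s) y (by linarith) (by linarith) (by linarith) (by linarith)

/-- number of terms of an arithmetic progression in an interval -/
lemma count (I : Finset ℕ) (g t u s1 : ℝ) (hg : 0 < g) (hs1 : 0 ≤ s1)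
    (hI : ∀ d ∈ I, |u - ((d : ℝ) * g + t)| ≤ s1) : (I.card : ℝ) ≤ 2 * s1 / g + 1 := by
  rcases I.eq_empty_or_nonempty with h | h
  · subst h
    simp only [Finset.card_empty, Nat.cast_zero]
    positivity
  · have h1 : I ⊆ Icc (I.min' h) (I.max' h) := fun d hd =>
      Finset.mem_Icc.2 ⟨Finset.min'_le _ _ hd, Finset.le_max' _ _ hd⟩
    have h2 := Finset.card_le_card h1
    rw [Nat.card_Icc] at h2
    have h3 := hI _ (Finset.min'_mem I h)
    have h4 := hI _ (Finset.max'_mem I h)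
    have h5 : I.min' h ≤ I.max' h := Finset.min'_le _ _ (Finset.max'_mem I h)
    rw [abs_le] at h3 h4
    have h6 : (((I.max' h : ℕ) : ℝ) - ((I.min' h : ℕ) : ℝ)) * g ≤ 2 * s1 := by
      have := h3.2
      have := h4.1
      nlinarith
    have h7 : (((I.max' h : ℕ) : ℝ) - ((I.min' h : ℕ) : ℝ)) ≤ 2 * s1 / g := by
      rwa [le_div_iff₀ hg]
    have h8 : (I.card : ℝ) ≤ ((I.max' h : ℕ) : ℝ) - ((I.min' h : ℕ) : ℝ) + 1 := by
      have : I.card + I.min' h ≤ I.max' h + 1 := by omega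
      have : ((I.card + I.min' h : ℕ) : ℝ) ≤ ((I.max' h + 1 : ℕ) : ℝ) := by exact_mod_cast this
      push_cast at this
      linarith
    linarith

/-- sums of integrals over the intervals `[d g + t - s1, d g + t + s1]` -/
lemma sum_int (f : ℝ → ℝ) (hf : Continuous f) (hf0 : ∀ u, 0 ≤ f u) (I : Finset ℕ) (g t s1 a b : ℝ)
    (hg : 0 < g) (hs1 : 0 ≤ s1) (hab : a ≤ b)
    (hI : ∀ d ∈ I, a ≤ (d : ℝ) * g + t - s1 ∧ (d : ℝ) * g + t + s1 ≤ b) :
    ∑ d ∈ I, ∫ u in ((d : ℝ) * g + t - s1)..((d : ℝ) * g + t + s1), f u ≤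
      (2 * s1 / g + 1) * ∫ u in a..b, f u := by
  have hint : MeasureTheory.IntegrableOn f (Set.Ioc a b) := hf.integrableOn_Ioc
  have h1 : ∀ d ∈ I, ∫ u in ((d : ℝ) * g + t - s1)..((d : ℝ) * g + t + s1), f u =
      ∫ u in Set.Ioc a b,
        (Set.Ioc ((d : ℝ) * g + t - s1) ((d : ℝ) * g + t + s1)).indicator f u := by
    intro d hd
    rw [MeasureTheory.setIntegral_indicator measurableSet_Ioc,
      intervalIntegral.integral_of_le (by linarith)]
    congr 2
    rw [Set.inter_eq_right.2]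
    exact Set.Ioc_subset_Ioc (hI d hd).1 (hI d hd).2
  rw [Finset.sum_congr rfl h1, ← MeasureTheory.integral_finset_sum,
    intervalIntegral.integral_of_le hab, ← MeasureTheory.integral_const_mul]
  · refine MeasureTheory.integral_mono ?_ (hint.const_mul _) ?_
    · refine MeasureTheory.integrable_finset_sum _ fun d _ => ?_
      exact hint.indicator measurableSet_Ioc
    · intro u
      dsimp only
      have e1 : ∑ d ∈ I, (Set.Ioc ((d : ℝ) * g + t - s1) ((d : ℝ) * g + t + s1)).indicator f u =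
          ((I.filter fun d : ℕ => u ∈ Set.Ioc ((d : ℝ) * g + t - s1)
            ((d : ℝ) * g + t + s1)).card : ℝ) * f u := by
        rw [← nsmul_eq_mul, ← Finset.sum_const, Finset.sum_filter]
        refine Finset.sum_congr rfl fun d _ => ?_
        rw [Set.indicator_apply]
      rw [e1]
      refine mul_le_mul_of_nonneg_right ?_ (hf0 u)
      refine count _ g t u s1 hg hs1 fun d hd => ?_
      have h2 := (Finset.mem_filter.1 hd).2
      rw [abs_le]
      constructor <;> linarith [h2.1, h2.2]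
  · intro d _
    exact hint.indicator measurableSet_Ioc

lemma e_int (h : ℤ) : e (h : ℝ) = 1 := by
  unfold e
  rw [Complex.exp_eq_one_iff]
  refine ⟨h, ?_⟩
  push_cast
  ring

/-- quasi-periodicity -/
lemma poly_shift (N : ℕ) (hN : 1 ≤ N) (θ : ℝ) (S : Finset ℤ) (c : ℤ → ℂ) (y : ℝ) :
    poly N θ S c (y + N) = e (-θ) * poly N θ S c y := by
  have hN0 : (N : ℝ) ≠ 0 := by
    have : (1 : ℝ) ≤ N := by exact_mod_cast hN
    linarith
  unfold poly
  rw [Finset.mul_sum]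
  refine Finset.sum_congr rfl fun h _ => ?_
  have h1 : -((y + N) * (((h : ℝ) + θ) / N)) =
      -(y * (((h : ℝ) + θ) / N)) + (-θ + ((-h : ℤ) : ℝ)) := by
    push_cast
    field_simp
    ring
  rw [h1, e_add, e_add, e_int]
  ring

/-- one value of `k` -/
lemma one_k (N D G G1 : ℕ) (hN : 1 ≤ N) (g t : ℝ) (s : ℕ → ℝ) (s1 δ θ : ℝ) (S : Finset ℤ)
    (c : ℤ → ℂ) (W : ℝ) (hD : 1 ≤ D) (hG1 : 1 ≤ G1) (hg1 : (G1 : ℝ) ≤ g) (hg2 : g ≤ G)
    (hs1 : 0 ≤ s1) (hs : ∀ d ∈ Ioc D (2 * D), |s d| ≤ s1) (hDG : (D : ℝ) * G + 2 * s1 ≤ N)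
    (hδ0 : 0 ≤ δ) (hδ : ∀ h ∈ S, |((h : ℝ) + θ) / N| ≤ δ)
    (hW : (N : ℝ) * ∑ h ∈ S, ‖c h‖ ^ 2 ≤ W) :
    ∑ d ∈ Ioc D (2 * D), ‖poly N θ S c ((d : ℝ) * g + t + s d) -
      poly N θ S c ((d : ℝ) * g + t)‖ ^ 2 ≤ s1 * (2 * s1 / G1 + 2) * (40 * δ ^ 2 * W) := by
  have hpi := Real.pi_pos
  have hG1R : (1 : ℝ) ≤ G1 := by exact_mod_cast hG1
  have hg0 : 0 < g := by linarith
  have hDR : (1 : ℝ) ≤ D := by exact_mod_cast hD
  have hW0 : 0 ≤ W := le_trans (by positivity) hW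
  set P : ℝ → ℂ := poly N θ S c with hP
  obtain ⟨hsm, hder⟩ := poly_deriv N hN θ S c δ hδ
  rw [← hP] at hsm hder
  have hsm1 : ContDiff ℝ 1 P := hsm.of_le (by exact_mod_cast le_top)
  have hPdc : Continuous (deriv P) := hsm1.continuous_deriv le_rfl
  set f : ℝ → ℝ := fun u => ‖deriv P u‖ ^ 2 with hf
  have hfc : Continuous f := hPdc.norm.pow 2
  have hf0 : ∀ u, 0 ≤ f u := fun u => by positivity
  have hper : Function.Periodic f N := by
    intro u
    have h1 : deriv P (u + N) = e (-θ) * deriv P u := by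
      have h2 : (fun y => P (y + N)) = fun y => e (-θ) * P y := by
        funext y
        exact poly_shift N hN θ S c y
      have h3 := deriv_comp_add_const P (N : ℝ) u
      rw [h2, deriv_const_mul _ (hsm1.differentiable one_ne_zero u)] at h3
      exact h3.symm
    show ‖deriv P (u + N)‖ ^ 2 = ‖deriv P u‖ ^ 2
    rw [h1, norm_mul, norm_e, one_mul]
  set a : ℝ := ((D : ℝ) + 1) * g + t - s1 with ha
  have hab : a ≤ a + N := by
    have : (0 : ℝ) ≤ N := Nat.cast_nonneg _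
    linarith
  have hInt : ∫ u in a..(a + N), f u ≤ (2 * Real.pi * δ) ^ 2 * W := by
    rw [hper.intervalIntegral_add_eq a 0, zero_add]
    exact hder.trans (mul_le_mul_of_nonneg_left hW (by positivity))
  have hsum : ∑ d ∈ Ioc D (2 * D),
      ∫ u in ((d : ℝ) * g + t - s1)..((d : ℝ) * g + t + s1), f u ≤
      (2 * s1 / g + 1) * ∫ u in a..(a + N), f u := by
    refine sum_int f hfc hf0 _ g t s1 a (a + N) hg0 hs1 hab fun d hd => ?_
    rw [Finset.mem_Ioc] at hd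
    have hd1 : (D : ℝ) + 1 ≤ d := by exact_mod_cast hd.1
    have hd2 : (d : ℝ) ≤ 2 * D := by exact_mod_cast hd.2
    constructor
    · rw [ha]
      nlinarith
    · rw [ha]
      have h1 : (d : ℝ) * g ≤ 2 * D * g := mul_le_mul_of_nonneg_right hd2 hg0.le
      have h2 : ((D : ℝ) - 1) * g ≤ D * G := by nlinarith
      nlinarith
  have hpi3 : Real.pi < 3.1416 := Real.pi_lt_d4
  have h4 : 4 * Real.pi ^ 2 ≤ 40 := by nlinarith
  have hI0 : 0 ≤ ∫ u in a..(a + N), f u :=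
    intervalIntegral.integral_nonneg hab fun u _ => hf0 u
  calc ∑ d ∈ Ioc D (2 * D), ‖P ((d : ℝ) * g + t + s d) - P ((d : ℝ) * g + t)‖ ^ 2
      ≤ ∑ d ∈ Ioc D (2 * D), s1 *
        ∫ u in ((d : ℝ) * g + t - s1)..((d : ℝ) * g + t + s1), f u :=
        Finset.sum_le_sum fun d hd => incr P hsm1 _ _ s1 (hs d hd)
    _ = s1 * ∑ d ∈ Ioc D (2 * D),
        ∫ u in ((d : ℝ) * g + t - s1)..((d : ℝ) * g + t + s1), f u := by rw [← Finset.mul_sum]
    _ ≤ s1 * ((2 * s1 / g + 1) * ∫ u in a..(a + N), f u) :=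
        mul_le_mul_of_nonneg_left hsum hs1
    _ ≤ s1 * ((2 * s1 / G1 + 2) * (40 * δ ^ 2 * W)) := by
        refine mul_le_mul_of_nonneg_left ?_ hs1
        have h5 : 2 * s1 / g + 1 ≤ 2 * s1 / G1 + 2 := by
          have : 2 * s1 / g ≤ 2 * s1 / G1 :=
            div_le_div_of_nonneg_left (by positivity) (by linarith) hg1
          linarith
        have h6 : ∫ u in a..(a + N), f u ≤ 40 * δ ^ 2 * W := by
          refine hInt.trans ?_
          have h7 : (2 * Real.pi * δ) ^ 2 * W = (4 * Real.pi ^ 2) * (δ ^ 2 * W) := by ring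
          have h8 : 40 * δ ^ 2 * W = 40 * (δ ^ 2 * W) := by ring
          rw [h7, h8]
          exact mul_le_mul_of_nonneg_right h4 (by positivity)
        exact mul_le_mul h5 h6 hI0 (by positivity)
    _ = _ := by ring

/-- F8. Perturbation depending on `d`. -/
theorem pertQ (N D G G1 K : ℕ) (hN : 1 ≤ N) (T : Finset ℕ) (g t : ℕ → ℝ) (s : ℕ → ℕ → ℝ)
    (s1 δ θ : ℝ) (S : Finset ℤ) (c : ℤ → ℂ) (W : ℝ) (hD : 1 ≤ D) (hG1 : 1 ≤ G1)
    (hg : ∀ k ∈ T, (G1 : ℝ) ≤ g k ∧ g k ≤ G) (hs1 : 0 ≤ s1)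
    (hs : ∀ k ∈ T, ∀ d ∈ Ioc D (2 * D), |s k d| ≤ s1) (hDG : (D : ℝ) * G + 2 * s1 ≤ N)
    (hδ0 : 0 ≤ δ) (hδ : ∀ h ∈ S, |((h : ℝ) + θ) / N| ≤ δ)
    (hW : (N : ℝ) * ∑ h ∈ S, ‖c h‖ ^ 2 ≤ W) (hT : T.card ≤ K) :
    ∑ d ∈ Ioc D (2 * D), ‖∑ k ∈ T, (poly N θ S c ((d : ℝ) * g k + t k + s k d) -
      poly N θ S c ((d : ℝ) * g k + t k))‖ ^ 2 ≤
      (K : ℝ) ^ 2 * (s1 * (2 * s1 / G1 + 2) * (40 * δ ^ 2 * W)) := by
  have hG1R : (1 : ℝ) ≤ G1 := by exact_mod_cast hG1
  have hW0 : 0 ≤ W := le_trans (by positivity) hW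
  set E : ℝ := s1 * (2 * s1 / G1 + 2) * (40 * δ ^ 2 * W) with hE
  have hE0 : 0 ≤ E := by positivity
  have hTK : (T.card : ℝ) ≤ K := by exact_mod_cast hT
  have h1 : ∀ d ∈ Ioc D (2 * D), ‖∑ k ∈ T, (poly N θ S c ((d : ℝ) * g k + t k + s k d) -
      poly N θ S c ((d : ℝ) * g k + t k))‖ ^ 2 ≤ T.card * ∑ k ∈ T,
        ‖poly N θ S c ((d : ℝ) * g k + t k + s k d) -
          poly N θ S c ((d : ℝ) * g k + t k)‖ ^ 2 := by
    intro d _
    have h2 := norm_sum_le T (fun k => poly N θ S c ((d : ℝ) * g k + t k + s k d) -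
      poly N θ S c ((d : ℝ) * g k + t k))
    calc _ ≤ (∑ k ∈ T, ‖poly N θ S c ((d : ℝ) * g k + t k + s k d) -
          poly N θ S c ((d : ℝ) * g k + t k)‖) ^ 2 := pow_le_pow_left₀ (norm_nonneg _) h2 2
      _ ≤ _ := sq_sum_le_card_mul_sum_sq
  calc _ ≤ ∑ d ∈ Ioc D (2 * D), T.card * ∑ k ∈ T,
        ‖poly N θ S c ((d : ℝ) * g k + t k + s k d) -
          poly N θ S c ((d : ℝ) * g k + t k)‖ ^ 2 := Finset.sum_le_sum h1
    _ = T.card * ∑ k ∈ T, ∑ d ∈ Ioc D (2 * D),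
        ‖poly N θ S c ((d : ℝ) * g k + t k + s k d) -
          poly N θ S c ((d : ℝ) * g k + t k)‖ ^ 2 := by
        rw [← Finset.mul_sum, Finset.sum_comm]
    _ ≤ T.card * ∑ _k ∈ T, E := by
        refine mul_le_mul_of_nonneg_left (Finset.sum_le_sum fun k hk => ?_) (Nat.cast_nonneg _)
        exact one_k N D G G1 hN (g k) (t k) (s k) s1 δ θ S c W hD hG1 (hg k hk).1 (hg k hk).2 hs1
          (hs k hk) hDG hδ0 hδ hW
    _ = (T.card : ℝ) ^ 2 * E := by
        rw [Finset.sum_const, nsmul_eq_mul]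
        ring
    _ ≤ (K : ℝ) ^ 2 * E := by
        refine mul_le_mul_of_nonneg_right ?_ hE0
        exact pow_le_pow_left₀ (Nat.cast_nonneg _) hTK 2

end Pool.Agent.H619R2.FB
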