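import Pool.Agent.H923R2.FP.Stubs

/-! Task BACK: the flow preserves generation. -/

set_option autoImplicit false

open scoped ComplexConjugate

noncomputable section

namespace Pool.Agent.H923R2.FP.T_BACK

open Pool.Agent.H923R2.FP

/-- a solution of an ordinary differential equation which starts in an invariant closed subspace
stays there -/
theorem stay {E : Type} [NormedAddCommGroup E] [NormedSpace ℝ E] (S : Submodule ℝ E)
    (hS : IsClosed (S : Set E)) (V : E → E)
    (hL : ∀ r : ℝ, ∃ L : ℝ, 0 ≤ L ∧ ∀ x y : E, ‖x‖ ≤ r → ‖y‖ ≤ r → ‖V x - V y‖ ≤ L * ‖x - y‖)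
    (hV : ∀ y ∈ S, V y ∈ S) (T : ℝ) (x : ℝ → E) (h0 : x 0 ∈ S)
    (hx : ∀ t ∈ Set.Icc 0 T, HasDerivWithinAt x (V (x t)) (Set.Icc 0 T) t) :
    ∀ t ∈ Set.Icc 0 T, x t ∈ S := by
  have : IsClosed (S : Set E) := hS
  have hc : ContinuousOn x (Set.Icc 0 T) := fun t ht => (hx t ht).continuousWithinAt
  obtain ⟨R, hR⟩ := isCompact_Icc.exists_bound_of_continuousOn hc
  obtain ⟨L, hL0, hL⟩ := hL (2 * |R| + 1)
  set mk : E →L[ℝ] E ⧸ S := LinearMap.mkContinuous S.mkQ 1 (fun y => by
    rw [one_mul]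
    exact Submodule.Quotient.norm_mk_le S y) with hmk
  have hmk' : ∀ y, mk y = Submodule.Quotient.mk y := fun y => rfl
  -- the main estimate
  have key : ∀ t ∈ Set.Icc 0 T, ‖mk (V (x t))‖ ≤ L * ‖mk (x t)‖ := by
    intro t ht
    apply le_of_forall_pos_le_add
    intro ε hε
    obtain ⟨δ, hδ, hδ1, hδL⟩ : ∃ δ : ℝ, 0 < δ ∧ δ ≤ 1 ∧ L * δ ≤ ε := by
      refine ⟨min 1 (ε / (L + 1)), lt_min one_pos (by positivity), min_le_left _ _, ?_⟩
      calc L * min 1 (ε / (L + 1)) ≤ L * (ε / (L + 1)) :=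
            mul_le_mul_of_nonneg_left (min_le_right _ _) hL0
        _ ≤ (L + 1) * (ε / (L + 1)) := by
            apply mul_le_mul_of_nonneg_right (by linarith) (by positivity)
        _ = ε := by field_simp
    obtain ⟨m, hm1, hm2⟩ := Submodule.Quotient.norm_mk_lt (mk (x t)) hδ
    have hb : x t - m ∈ S := by
      rw [← Submodule.Quotient.eq]
      exact hm1.symm
    have hRt := hR t ht
    have hRa := le_abs_self R
    have h1 : ‖mk (x t)‖ ≤ ‖x t‖ := Submodule.Quotient.norm_mk_le S (x t)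
    have h2 : ‖x t - m‖ ≤ 2 * |R| + 1 := by
      have := norm_sub_le (x t) m
      linarith
    have h3 := hL (x t) (x t - m) (by have := norm_nonneg (x t); linarith) h2
    have h4 : mk (V (x t)) = mk (V (x t) - V (x t - m)) := by
      rw [hmk', hmk', Submodule.Quotient.eq, sub_sub_cancel]
      exact hV _ hb
    rw [sub_sub_cancel] at h3
    calc ‖mk (V (x t))‖ ≤ ‖V (x t) - V (x t - m)‖ := by
          rw [h4]
          exact Submodule.Quotient.norm_mk_le S _
      _ ≤ L * ‖m‖ := h3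
      _ ≤ L * (‖mk (x t)‖ + δ) := mul_le_mul_of_nonneg_left hm2.le hL0
      _ ≤ L * ‖mk (x t)‖ + ε := by rw [mul_add]; linarith
  have hd : ∀ t ∈ Set.Ico 0 T, HasDerivWithinAt (fun t => mk (x t)) (mk (V (x t)))
      (Set.Ici t) t := by
    intro t ht
    have h1 := hx t (Set.Ico_subset_Icc_self ht)
    have h2 : HasDerivWithinAt x (V (x t)) (Set.Ici t) t :=
      h1.mono_of_mem_nhdsWithin (Icc_mem_nhdsGE_of_mem ht)
    exact (mk.hasFDerivAt.comp_hasDerivWithinAt t h2)
  have hz := norm_le_gronwallBound_of_norm_deriv_right_le (f := fun t => mk (x t))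
    (f' := fun t => mk (V (x t))) (δ := 0) (K := L) (ε := 0) (a := 0) (b := T)
    (mk.continuous.comp_continuousOn hc) hd (by
      rw [hmk', (Submodule.Quotient.mk_eq_zero S).2 h0, norm_zero])
    (fun t ht => by
      rw [add_zero]
      exact key t (Set.Ico_subset_Icc_self ht))
  intro t ht
  have h1 := hz t ht
  rw [gronwallBound_ε0, zero_mul] at h1
  have h2 : mk (x t) = 0 := norm_le_zero_iff.1 h1
  rw [hmk'] at h2
  exact (Submodule.Quotient.mk_eq_zero S).1 h2


section

variable {A Q R : Type} [CStarAlgebra A] [Ring Q] [StarRing Q] [Algebra ℂ Q]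
  [Ring R] [StarRing R] [Algebra ℂ R]

/-- product of expressions -/
def mulx (e e' : Ex Q R) : Ex Q R := e.flatMap fun p => e'.map fun q => (p.1 * q.1, p.2 ++ q.2)

omit [StarRing Q] [Algebra ℂ Q] [StarRing R] [Algebra ℂ R] in
lemma evx_single_mul (θ : Lt Q R → A) (p : ℂ × List (Lt Q R)) (e' : Ex Q R) :
    evx θ (e'.map fun q => (p.1 * q.1, p.2 ++ q.2)) = (p.1 • ev θ p.2) * evx θ e' := by
  induction e' with
  | nil => simp
  | cons q e' ih =>
    rw [List.map_cons, evx_cons, evx_cons, ih, ev_append, mul_add, smul_mul_smul_comm]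

omit [StarRing Q] [Algebra ℂ Q] [StarRing R] [Algebra ℂ R] in
lemma evx_mulx (θ : Lt Q R → A) (e e' : Ex Q R) :
    evx θ (mulx e e') = evx θ e * evx θ e' := by
  induction e with
  | nil => simp [mulx]
  | cons p e ih =>
    have h : mulx (p :: e) e' = (e'.map fun q => (p.1 * q.1, p.2 ++ q.2)) ++ mulx e e' := rfl
    rw [h, evx_append, evx_single_mul, ih, evx_cons, add_mul]

/-- adjoint of an expression -/
def stx (e : Ex Q R) : Ex Q R := e.map fun p => (conj p.1, stw p.2)

lemma evx_stx {θ : Lt Q R → A} (hθ : ∀ z, θ (stl z) = star (θ z)) (e : Ex Q R) :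
    evx θ (stx e) = star (evx θ e) := by
  induction e with
  | nil => simp [stx]
  | cons p e ih =>
    have h : stx (p :: e) = (conj p.1, stw p.2) :: stx e := rfl
    rw [h, evx_cons, evx_cons, ih, star_add, star_smul, star_ev hθ]
    rfl

/-- the expressions as a star subalgebra -/
def BS (θ : Lt Q R → A) (hθ : ∀ z, θ (stl z) = star (θ z)) : StarSubalgebra ℂ A where
  carrier := Set.range (evx θ)
  mul_mem' := by
    rintro _ _ ⟨e, rfl⟩ ⟨e', rfl⟩
    exact ⟨mulx e e', evx_mulx θ e e'⟩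
  add_mem' := by
    rintro _ _ ⟨e, rfl⟩ ⟨e', rfl⟩
    exact ⟨e ++ e', evx_append θ e e'⟩
  algebraMap_mem' := fun c => ⟨[(c, [])], by
    rw [evx_cons, evx_nil, ev_nil, add_zero, Algebra.algebraMap_eq_smul_one]⟩
  star_mem' := by
    rintro _ ⟨e, rfl⟩
    exact ⟨stx e, evx_stx hθ e⟩

lemma letter_mem (θ : Lt Q R → A) (hθ : ∀ z, θ (stl z) = star (θ z)) (z : Lt Q R) :
    θ z ∈ (BS θ hθ).topologicalClosure := by
  apply (BS θ hθ).le_topologicalClosure
  exact ⟨[(1, [z])], by simp⟩

omit [StarRing Q] [Algebra ℂ Q] [StarRing R] [Algebra ℂ R] in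
/-- an expression in letters of a star subalgebra belongs to the subalgebra -/
lemma evx_mem (C : StarSubalgebra ℂ A) (θ : Lt Q R → A) (h : ∀ z, θ z ∈ C) (e : Ex Q R) :
    evx θ e ∈ C := by
  have h1 : ∀ w : List (Lt Q R), ev θ w ∈ C := by
    intro w
    induction w with
    | nil => exact one_mem C
    | cons z w ih =>
      rw [ev_cons]
      exact mul_mem (h z) ih
  induction e with
  | nil => exact zero_mem C
  | cons p e ih =>
    rw [evx_cons]
    exact add_mem (C.smul_mem (h1 p.2) p.1) ih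

end

theorem t_BACK (hLIP : S_LIP) : S_BACK := by
  intro A Q R _ _ _ _ _ _ _ π ρ hx px T U s hT _ _ _ sol hgen
  set π' : Q →⋆ₐ[ℂ] A := cj π (U T) with hπ'
  set θ : Lt Q R → A := vl π' ρ (s T) with hθdef
  have hθ : ∀ z, θ (stl z) = star (θ z) := vl_stl π' ρ (sol.ssa T)
  set C : StarSubalgebra ℂ A := (BS θ hθ).topologicalClosure with hC
  have hCcl : IsClosed (C : Set A) := (BS θ hθ).isClosed_topologicalClosure
  set B : Submodule ℝ A := (Subalgebra.toSubmodule C.toSubalgebra).restrictScalars ℝ with hB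
  have hBC : ∀ y, y ∈ B ↔ y ∈ C := fun y => Iff.rfl
  set S : Submodule ℝ (A × A) := B.prod B with hSdef
  have hScl : IsClosed (S : Set (A × A)) := hCcl.prod hCcl
  have hπC : ∀ y : Q, π' y ∈ C := fun y => letter_mem θ hθ (.q y)
  have hρC : ∀ y : R, ρ y ∈ C := fun y => letter_mem θ hθ (.r y)
  have hsC : s T ∈ C := letter_mem θ hθ .s
  set V : A × A → A × A := fun x => (-(Complex.I • (x.1 * evx (vu π' ρ x.1 x.2) hx)),
    evx (vu π' ρ x.1 x.2) px) with hV
  -- `V` is Lipschitz on balls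
  have hL : ∀ r : ℝ, ∃ L : ℝ, 0 ≤ L ∧ ∀ x y : A × A, ‖x‖ ≤ r → ‖y‖ ≤ r →
      ‖V x - V y‖ ≤ L * ‖x - y‖ := by
    intro r
    obtain ⟨K₁, hK₁⟩ := hLIP A Q R π' ρ hx r
    obtain ⟨K₂, hK₂⟩ := hLIP A Q R π' ρ px r
    set M : ℝ := ‖evx (vu π' ρ (0 : A) 0) hx‖ with hM
    have hM0 : 0 ≤ M := norm_nonneg _
    refine ⟨(M + K₁ * |r|) + |r| * K₁ + K₂, by positivity, ?_⟩
    intro x y hxr hyr
    have hr0 : 0 ≤ r := (norm_nonneg x).trans hxr
    have hra : |r| = r := abs_of_nonneg hr0
    have hxb : x ∈ Metric.closedBall (0 : A × A) r := by rwa [mem_closedBall_zero_iff]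
    have hyb : y ∈ Metric.closedBall (0 : A × A) r := by rwa [mem_closedBall_zero_iff]
    have h0b : (0 : A × A) ∈ Metric.closedBall (0 : A × A) r := by
      rwa [mem_closedBall_zero_iff, norm_zero]
    have h1 := hK₁.dist_le_mul x hxb y hyb
    have h2 := hK₂.dist_le_mul x hxb y hyb
    have h3 := hK₁.dist_le_mul x hxb 0 h0b
    rw [dist_eq_norm, dist_eq_norm] at h1 h2 h3
    rw [sub_zero] at h3
    simp only [Prod.fst_zero, Prod.snd_zero] at h3
    have h4 : ‖evx (vu π' ρ x.1 x.2) hx‖ ≤ M + K₁ * r := by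
      have h5 : ‖evx (vu π' ρ x.1 x.2) hx‖ ≤
          ‖evx (vu π' ρ x.1 x.2) hx - evx (vu π' ρ (0 : A) 0) hx‖ +
          ‖evx (vu π' ρ (0 : A) 0) hx‖ := by
        have := norm_add_le (evx (vu π' ρ x.1 x.2) hx - evx (vu π' ρ (0 : A) 0) hx)
          (evx (vu π' ρ (0 : A) 0) hx)
        rwa [sub_add_cancel] at this
      have h6 : (K₁ : ℝ) * ‖x‖ ≤ K₁ * r := mul_le_mul_of_nonneg_left hxr K₁.2
      linarith
    have h5 : ‖x.1 - y.1‖ ≤ ‖x - y‖ := norm_fst_le (x - y)
    have h6 : ‖y.1‖ ≤ r := (norm_fst_le y).trans hyr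
    have hxy0 : 0 ≤ ‖x - y‖ := norm_nonneg _
    have hMK : 0 ≤ M + K₁ * r := by positivity
    have h7 : ‖x.1 * evx (vu π' ρ x.1 x.2) hx - y.1 * evx (vu π' ρ y.1 y.2) hx‖ ≤
        (M + K₁ * r) * ‖x - y‖ + r * K₁ * ‖x - y‖ := by
      have e : x.1 * evx (vu π' ρ x.1 x.2) hx - y.1 * evx (vu π' ρ y.1 y.2) hx =
          (x.1 - y.1) * evx (vu π' ρ x.1 x.2) hx +
          y.1 * (evx (vu π' ρ x.1 x.2) hx - evx (vu π' ρ y.1 y.2) hx) := by
        noncomm_ring
      rw [e]
      refine (norm_add_le _ _).trans (add_le_add ?_ ?_)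
      · refine (norm_mul_le _ _).trans ?_
        rw [mul_comm]
        exact mul_le_mul h4 h5 (norm_nonneg _) hMK
      · refine (norm_mul_le _ _).trans ?_
        rw [mul_assoc]
        exact mul_le_mul h6 h1 (norm_nonneg _) hr0
    have h8 : ‖V x - V y‖ ≤ ‖(V x - V y).1‖ + ‖(V x - V y).2‖ := by
      rw [Prod.norm_def]
      exact max_le (le_add_of_nonneg_right (norm_nonneg _)) (le_add_of_nonneg_left (norm_nonneg _))
    have h9 : ‖(V x - V y).1‖ =
        ‖x.1 * evx (vu π' ρ x.1 x.2) hx - y.1 * evx (vu π' ρ y.1 y.2) hx‖ := by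
      have e : (V x - V y).1 = -(Complex.I • (x.1 * evx (vu π' ρ x.1 x.2) hx -
          y.1 * evx (vu π' ρ y.1 y.2) hx)) := by
        rw [Prod.fst_sub, hV, smul_sub]
        simp only
        abel
      rw [e, norm_neg, norm_smul, Complex.norm_I, one_mul]
    have h10 : (V x - V y).2 = evx (vu π' ρ x.1 x.2) px - evx (vu π' ρ y.1 y.2) px := rfl
    rw [h9, h10] at h8
    rw [hra]
    nlinarith
  -- `V` preserves `S`
  have hVS : ∀ y ∈ S, V y ∈ S := by
    rintro ⟨y₁, y₂⟩ hy
    have hy1 : y₁ ∈ C := hy.1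
    have hy2 : y₂ ∈ C := hy.2
    have h1 : ∀ e : Ex Q R, evx (vu π' ρ y₁ y₂) e ∈ C := by
      apply evx_mem
      intro z
      cases z with
      | q x => exact mul_mem (mul_mem (star_mem hy1) (hπC x)) hy1
      | r x => exact hρC x
      | s => exact hy2
    exact ⟨neg_mem (C.smul_mem (mul_mem hy1 (h1 hx)) Complex.I), h1 px⟩
  -- the solution in reversed time
  set x : ℝ → A × A := fun r => (star (U T : A) * (U (T - r) : A), s (T - r)) with hxdef
  have hU1 : star (U T : A) * (U T : A) = 1 := Unitary.star_mul_self_of_mem (U T).2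
  have hU2 : (U T : A) * star (U T : A) = 1 := Unitary.mul_star_self_of_mem (U T).2
  have hx0 : x 0 ∈ S := by
    constructor
    · show star (U T : A) * (U (T - 0) : A) ∈ C
      rw [sub_zero, hU1]
      exact one_mem C
    · show s (T - 0) ∈ C
      rw [sub_zero]
      exact hsC
  have hletters : ∀ r, vl (cj π (U (T - r))) ρ (s (T - r)) = vu π' ρ (x r).1 (x r).2 := by
    intro r
    funext z
    cases z with
    | q y =>
      show cj π (U (T - r)) y = star (star (U T : A) * (U (T - r) : A)) * π' y *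
        (star (U T : A) * (U (T - r) : A))
      rw [hπ', cj_apply, cj_apply, star_mul, star_star]
      calc star (U (T - r) : A) * π y * (U (T - r) : A)
          = star (U (T - r) : A) * 1 * π y * 1 * (U (T - r) : A) := by noncomm_ring
        _ = star (U (T - r) : A) * ((U T : A) * star (U T : A)) * π y *
            ((U T : A) * star (U T : A)) * (U (T - r) : A) := by rw [hU2]
        _ = _ := by noncomm_ring
    | r y => rfl
    | s => rfl
  have hxd : ∀ r ∈ Set.Icc 0 T, HasDerivWithinAt x (V (x r)) (Set.Icc 0 T) r := by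
    intro r hr
    have hr' : T - r ∈ Set.Icc 0 T := ⟨by linarith [hr.2], by linarith [hr.1]⟩
    have hg : HasDerivWithinAt (fun r : ℝ => T - r) (-1) (Set.Icc 0 T) r := by
      have := (hasDerivWithinAt_id r (Set.Icc 0 T)).const_sub T
      exact this
    have hmaps : Set.MapsTo (fun r : ℝ => T - r) (Set.Icc 0 T) (Set.Icc 0 T) := fun y hy =>
      ⟨by linarith [hy.2], by linarith [hy.1]⟩
    have h1 := HasDerivWithinAt.scomp r (sol.dU (T - r) hr') hg hmaps
    have h2 := HasDerivWithinAt.scomp r (sol.ds (T - r) hr') hg hmaps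
    have h3 := h1.const_mul (star (U T : A))
    have h4 := h3.prodMk h2
    have e : V (x r) = (star (U T : A) * ((-1 : ℝ) • (Complex.I • ((U (T - r) : A) *
        evx (vl (cj π (U (T - r))) ρ (s (T - r))) hx))),
        (-1 : ℝ) • (-(evx (vl (cj π (U (T - r))) ρ (s (T - r))) px))) := by
      rw [hletters r]
      apply Prod.ext
      · show -(Complex.I • ((x r).1 * evx (vu π' ρ (x r).1 (x r).2) hx)) =
          star (U T : A) * ((-1 : ℝ) • (Complex.I • ((U (T - r) : A) *
            evx (vu π' ρ (x r).1 (x r).2) hx)))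
        rw [neg_one_smul, mul_neg, mul_smul_comm, ← mul_assoc]
      · show evx (vu π' ρ (x r).1 (x r).2) px = (-1 : ℝ) • (-(evx (vu π' ρ (x r).1 (x r).2) px))
        rw [neg_one_smul, neg_neg]
    rw [e]
    exact h4
  have hxT := stay S hScl V hL hVS T x hx0 hxd T ⟨hT.le, le_rfl⟩
  have hW : star (U T : A) ∈ C := by
    have h1 : star (U T : A) * (U (T - T) : A) ∈ C := hxT.1
    rw [sub_self, sol.U0] at h1
    simpa using h1
  have hs0 : s 0 ∈ C := by
    have h1 : s (T - T) ∈ C := hxT.2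
    rwa [sub_self] at h1
  have hUT : (U T : A) ∈ C := by
    have := star_mem hW
    rwa [star_star] at this
  have hall : ∀ e : Ex Q R, evx (vl π ρ (s 0)) e ∈ C := by
    apply evx_mem
    intro z
    cases z with
    | q y =>
      show π y ∈ C
      have e : π y = (U T : A) * π' y * star (U T : A) := by
        rw [hπ', cj_apply]
        calc π y = 1 * π y * 1 := by noncomm_ring
          _ = ((U T : A) * star (U T : A)) * π y * ((U T : A) * star (U T : A)) := by rw [hU2]
          _ = _ := by noncomm_ring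
      rw [e]
      exact mul_mem (mul_mem hUT (hπC y)) hW
    | r y => exact hρC y
    | s => exact hs0
  intro y ε hε
  have hy : y ∈ C := by
    have h1 : y ∈ closure (C : Set A) := by
      rw [Metric.mem_closure_iff]
      intro δ hδ
      obtain ⟨e, he⟩ := hgen y δ hδ
      exact ⟨_, hall e, by rwa [dist_eq_norm]⟩
    rwa [hCcl.closure_eq] at h1
  have h2 : y ∈ closure (Set.range (evx θ)) := hy
  rw [Metric.mem_closure_iff] at h2
  obtain ⟨_, ⟨e, rfl⟩, he⟩ := h2 ε hε
  exact ⟨e, by rwa [dist_eq_norm] at he⟩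

end Pool.Agent.H923R2.FP.T_BACK
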