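import Mathlib

open Finset Equiv

namespace Pool.Agent.H619R2.Counting

/-- number of permutations of a subtype turning one pattern into another -/
theorem card_comp_eq_le {β : Type*} [Fintype β] [DecidableEq β] (f k : β → Fin 3) :
    (univ.filter (fun p : Perm β => ∀ x, f (p x) = k x)).card
      ≤ ∏ i, (Fintype.card {a // f a = i}).factorial := by
  classical
  by_cases h : ∃ p0 : Perm β, ∀ x, f (p0 x) = k x
  · obtain ⟨p0, hp0⟩ := h
    rw [← DomMulAct.stabilizer_card f, Fintype.card_subtype]
    refine Finset.card_le_card_of_injOn (fun p => p * p0⁻¹) ?_ ?_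
    · intro p hp
      simp only [Finset.coe_filter, Finset.mem_univ, true_and, Set.mem_ofPred_eq] at hp ⊢
      funext x
      have h1 := hp (p0⁻¹ x)
      have h2 := hp0 (p0⁻¹ x)
      simp only [Function.comp, Perm.mul_apply]
      rw [h1, ← h2]; congr 1; exact (p0.apply_symm_apply x)
    · intro p _ q _ hpq
      simpa using hpq
  · have : (univ.filter (fun p : Perm β => ∀ x, f (p x) = k x)) = ∅ := by
      apply Finset.filter_false_of_mem
      intro p _ hp
      exact h ⟨p, hp⟩
    rw [this]; simp

/-- The number of permutations with a prescribed colour pattern on `S`. -/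
theorem pattern_count {α : Type*} [Fintype α] [DecidableEq α] (S : Finset α)
    (χ f : α → Fin 3) :
    (univ.filter (fun σ : Perm α => ∀ x ∈ S, χ (σ x) = f x)).card * (S.card).factorial
      ≤ (Fintype.card α).factorial *
        ∏ i, ((S.filter (fun x => f x = i)).card).factorial := by
  classical
  -- the pairs (σ, p) with p a permutation of S and χ ∘ σ = f ∘ p on S
  have key : (∑ p : Perm S, (univ.filter
      (fun σ : Perm α => ∀ x : S, χ (σ x) = f (p x))).card)
      = (univ.filter (fun σ : Perm α => ∀ x ∈ S, χ (σ x) = f x)).card * (S.card).factorial := by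
    have h1 : ∀ p : Perm S, (univ.filter
      (fun σ : Perm α => ∀ x : S, χ (σ x) = f (p x))).card
        = (univ.filter (fun σ : Perm α => ∀ x ∈ S, χ (σ x) = f x)).card := by
      intro p
      refine Finset.card_bij (fun σ _ => σ * (Perm.ofSubtype p)⁻¹) ?_ ?_ ?_
      · intro σ hσ
        simp only [Finset.mem_filter, Finset.mem_univ, true_and] at hσ ⊢
        intro x hx
        have h2 := hσ (p⁻¹ ⟨x, hx⟩)
        rw [show p (p⁻¹ ⟨x, hx⟩) = ⟨x, hx⟩ from p.apply_symm_apply _] at h2
        rw [← map_inv, Perm.mul_apply, Perm.ofSubtype_apply_of_mem _ hx]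
        exact h2
      · intro σ _ τ _ h
        simpa using h
      · intro τ hτ
        simp only [Finset.mem_filter, Finset.mem_univ, true_and] at hτ
        refine ⟨τ * Perm.ofSubtype p, ?_, by simp⟩
        simp only [Finset.mem_filter, Finset.mem_univ, true_and]
        intro x
        rw [Perm.mul_apply, Perm.ofSubtype_apply_coe]
        exact hτ _ (p x).2
    rw [Finset.sum_congr rfl (fun p _ => h1 p), Finset.sum_const, Finset.card_univ,
      Fintype.card_perm, Fintype.card_coe, smul_eq_mul, mul_comm]
  rw [← key]
  calc (∑ p : Perm S, (univ.filter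
      (fun σ : Perm α => ∀ x : S, χ (σ x) = f (p x))).card)
      = ∑ p : Perm S, ∑ σ : Perm α, (if ∀ x : S, χ (σ x) = f (p x) then 1 else 0) := by
        refine Finset.sum_congr rfl (fun p _ => ?_)
        rw [Finset.card_filter]
    _ = ∑ σ : Perm α, ∑ p : Perm S, (if ∀ x : S, χ (σ x) = f (p x) then 1 else 0) :=
        Finset.sum_comm
    _ = ∑ σ : Perm α, (univ.filter
          (fun p : Perm S => ∀ x : S, f (p x) = χ (σ x))).card := by
        refine Finset.sum_congr rfl (fun σ _ => ?_)
        rw [Finset.card_filter]
        refine Finset.sum_congr rfl (fun p _ => ?_)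
        congr 1
        apply propext
        exact forall_congr' fun x => eq_comm
    _ ≤ ∑ σ : Perm α, ∏ i, ((S.filter (fun x => f x = i)).card).factorial := by
        refine Finset.sum_le_sum (fun σ _ => ?_)
        refine (card_comp_eq_le (fun x : S => f x) (fun x : S => χ (σ x))).trans ?_
        refine le_of_eq (Finset.prod_congr rfl (fun i _ => ?_))
        congr 1
        rw [Fintype.card_subtype]
        refine Finset.card_bij (fun x _ => (x : α)) ?_ ?_ ?_
        · intro x hx
          simp only [Finset.mem_filter, Finset.mem_univ, true_and] at hx ⊢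
          exact ⟨x.2, hx⟩
        · intro x _ y _ h; exact Subtype.ext h
        · intro x hx
          simp only [Finset.mem_filter] at hx
          exact ⟨⟨x, hx.1⟩, by simpa using hx.2, rfl⟩
    _ = _ := by
        rw [Finset.sum_const, Finset.card_univ, Fintype.card_perm, smul_eq_mul]

/-- spreading out factorials -/
theorem factorial_spread (b c k : ℕ) (h : c ≤ b) (hk : k ≤ c) :
    b.factorial * c.factorial ≤ (b + k).factorial * (c - k).factorial := by
  induction k with
  | zero => simp
  | succ k ih =>
    refine (ih (by omega)).trans ?_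
    have h1 : c - k = (c - (k+1)) + 1 := by omega
    rw [h1, Nat.factorial_succ, ← add_assoc, Nat.factorial_succ]
    have h2 : c - (k+1) + 1 ≤ b + k + 1 := by omega
    calc (b + k).factorial * ((c - (k + 1) + 1) * (c - (k + 1)).factorial)
        = (c - (k+1) + 1) * ((b + k).factorial * (c - (k + 1)).factorial) := by ring
      _ ≤ (b + k + 1) * ((b + k).factorial * (c - (k + 1)).factorial) :=
          Nat.mul_le_mul_right _ h2
      _ = _ := by ring

theorem fac3_aux (a b c h : ℕ) (hcb : c ≤ b) (hba : b ≤ a)
    (hah : a ≤ h) (h2 : a + b + c = 2 * h ∨ a + b + c = 2 * h + 1) :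
    a.factorial * b.factorial * c.factorial ≤ h.factorial * (a + b + c - h).factorial := by
  -- move mass from c to b until b reaches s - h
  set t := a + b + c - h with ht
  have hbt : b ≤ t := by omega
  have hk : t - b ≤ c := by omega
  have h3 := factorial_spread b c (t - b) hcb hk
  have e1 : b + (t - b) = t := by omega
  rw [e1] at h3
  have e2 : a + (c - (t - b)) = h := by omega
  have h4 : a.factorial * (c - (t-b)).factorial ≤ h.factorial := by
    have := Nat.factorial_mul_factorial_dvd_factorial_add a (c - (t-b))
    rw [e2] at this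
    exact Nat.le_of_dvd (Nat.factorial_pos _) this
  calc a.factorial * b.factorial * c.factorial
      = a.factorial * (b.factorial * c.factorial) := by ring
    _ ≤ a.factorial * (t.factorial * (c - (t-b)).factorial) := Nat.mul_le_mul_left _ h3
    _ = (a.factorial * (c - (t-b)).factorial) * t.factorial := by ring
    _ ≤ h.factorial * t.factorial := Nat.mul_le_mul_right _ h4

theorem fac_mid (s : ℕ) : (s/2).factorial * (s - s/2).factorial * 2 ^ s ≤ (s + 1) * s.factorial := by
  have h1 : 2 ^ s ≤ (s + 1) * s.choose (s/2) := by
    rw [← Nat.sum_range_choose s]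
    calc ∑ m ∈ Finset.range (s + 1), s.choose m ≤ ∑ m ∈ Finset.range (s+1), s.choose (s/2) :=
          Finset.sum_le_sum (fun m _ => Nat.choose_le_middle m s)
      _ = _ := by simp
  have h2 : s.choose (s/2) * (s/2).factorial * (s - s/2).factorial = s.factorial :=
    Nat.choose_mul_factorial_mul_factorial (Nat.div_le_self s 2)
  calc (s/2).factorial * (s - s/2).factorial * 2 ^ s
      ≤ (s/2).factorial * (s - s/2).factorial * ((s + 1) * s.choose (s/2)) :=
        Nat.mul_le_mul_left _ h1
    _ = (s+1) * (s.choose (s/2) * (s/2).factorial * (s - s/2).factorial) := by ring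
    _ = _ := by rw [h2]

/-- three factorials, none of whose arguments exceeds half of the sum -/
theorem fac3 (a b c : ℕ) (ha : 2 * a ≤ a + b + c) (hb : 2 * b ≤ a + b + c)
    (hc : 2 * c ≤ a + b + c) :
    a.factorial * b.factorial * c.factorial * 2 ^ (a + b + c)
      ≤ (a + b + c + 1) * (a + b + c).factorial := by
  have main : a.factorial * b.factorial * c.factorial
      ≤ ((a+b+c)/2).factorial * (a + b + c - (a+b+c)/2).factorial := by
    rcases le_total a b with h1 | h1 <;> rcases le_total b c with h2 | h2 <;>
      rcases le_total a c with h3 | h3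
    · -- a ≤ b ≤ c
      have := fac3_aux c b a ((a+b+c)/2) h1 h2 (by omega) (by omega)
      have e : c + b + a = a + b + c := by ring
      rw [e] at this
      calc _ = c.factorial * b.factorial * a.factorial := by ring
        _ ≤ _ := this
    · have := fac3_aux c b a ((a+b+c)/2) h1 h2 (by omega) (by omega)
      have e : c + b + a = a + b + c := by ring
      rw [e] at this
      calc _ = c.factorial * b.factorial * a.factorial := by ring
        _ ≤ _ := this
    · -- a ≤ b, c ≤ b, a ≤ c
      have := fac3_aux b c a ((a+b+c)/2) h3 h2 (by omega) (by omega)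
      have e : b + c + a = a + b + c := by ring
      rw [e] at this
      calc _ = b.factorial * c.factorial * a.factorial := by ring
        _ ≤ _ := this
    · -- a ≤ b, c ≤ b, c ≤ a
      have := fac3_aux b a c ((a+b+c)/2) h3 h1 (by omega) (by omega)
      have e : b + a + c = a + b + c := by ring
      rw [e] at this
      calc _ = b.factorial * a.factorial * c.factorial := by ring
        _ ≤ _ := this
    · -- b ≤ a, b ≤ c, a ≤ c
      have := fac3_aux c a b ((a+b+c)/2) h1 h3 (by omega) (by omega)
      have e : c + a + b = a + b + c := by ring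
      rw [e] at this
      calc _ = c.factorial * a.factorial * b.factorial := by ring
        _ ≤ _ := this
    · -- b ≤ a, b ≤ c, c ≤ a
      have := fac3_aux a c b ((a+b+c)/2) h2 h3 (by omega) (by omega)
      have e : a + c + b = a + b + c := by ring
      rw [e] at this
      calc _ = a.factorial * c.factorial * b.factorial := by ring
        _ ≤ _ := this
    · -- b ≤ a, c ≤ b, a ≤ c
      have := fac3_aux a b c ((a+b+c)/2) h2 h1 (by omega) (by omega)
      exact this
    · exact fac3_aux a b c ((a+b+c)/2) h2 h1 (by omega) (by omega)
  calc a.factorial * b.factorial * c.factorial * 2 ^ (a + b + c)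
      ≤ ((a+b+c)/2).factorial * (a + b + c - (a+b+c)/2).factorial * 2 ^ (a+b+c) :=
        Nat.mul_le_mul_right _ main
    _ ≤ _ := fac_mid _

end Pool.Agent.H619R2.Counting
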