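import Mathlib
import Pool.Agent.H925R3.DD.Stubs
import Pool.Agent.H911R5.DC_PAR

/-!
# PARB: choice of the parameters
-/

namespace Pool.Agent.H619R2.DDPARB

open Filter Topology Real
open Pool.Agent.H911R5.DCPAR (choose_ge Big big)

/-- the additional conditions on `L = log H` -/
structure Big2 (d : ℕ) (η₀ η L : ℝ) : Prop where
  d3 : (d : ℝ) * Real.log 3 ≤ η * L
  ld : Real.log d ≤ η * L
  e0 : -Real.log η₀ ≤ η * Real.log (L ^ (2 - 8 * η))

theorem big2 (d : ℕ) (η₀ : ℝ) {η : ℝ} (h0 : 0 < η) (h1 : η ≤ 1 / 64) :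
    ∀ᶠ L : ℝ in atTop, Big2 d η₀ η L := by
  have hc : 0 < 2 - 8 * η := by linarith
  have hX : Tendsto (fun L : ℝ => L ^ (2 - 8 * η)) atTop atTop := tendsto_rpow_atTop hc
  have hlX : Tendsto (fun L : ℝ => Real.log (L ^ (2 - 8 * η))) atTop atTop :=
    Real.tendsto_log_atTop.comp hX
  have h4 : Tendsto (fun L : ℝ => η * Real.log (L ^ (2 - 8 * η))) atTop atTop :=
    hlX.const_mul_atTop h0
  have h5 : Tendsto (fun L : ℝ => η * L) atTop atTop := tendsto_id.const_mul_atTop h0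
  filter_upwards [h5.eventually_ge_atTop ((d : ℝ) * Real.log 3),
    h5.eventually_ge_atTop (Real.log d), h4.eventually_ge_atTop (-Real.log η₀)] with L a1 a2 a3
  exact ⟨a1, a2, a3⟩

theorem main {t q d : ℕ} {η₀ : ℝ} (hq : 1 ≤ q) (hd : 1 ≤ d) (hη₀ : 0 < η₀) {η ε : ℝ}
    (h0 : 0 < η) (h1 : η ≤ 1 / 64) (h2 : η ≤ ε / 8)
    {H : ℕ} (hH : 1 ≤ H) (hB : Big t q η (Real.log H)) (hB2 : Big2 d η₀ η (Real.log H)) {X : ℝ}
    (hX : X = Real.log H ^ (2 - 8 * η)) {n : ℕ} (hn : X ^ (1 - η) / (q : ℝ) - 1 ≤ (n : ℝ))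
    {N : ℕ} (hN : 0 < N) (hlN : Real.log N ≤ X ^ (1 / 2 + η)) :
    1 ≤ X ^ (1 - η) / (q : ℝ) - 1 ∧
    ∃ k : ℕ, 0 < n.choose k ∧
      (N : ℝ) ^ t * (((n.choose k : ℝ) * (2 * (H : ℝ) + 1) ^ d +
        (n.choose k : ℝ) ^ 2 * (d * (⌊X⌋₊ : ℝ) ^ (2 * k) * (2 * (H : ℝ) + 1) ^ (d - 1))) /
        (η₀ ^ (2 * k) * (n.choose k : ℝ) ^ 2)) ≤ (H : ℝ) ^ ((d : ℝ) - 1 / 5 + ε) := by
  set L := Real.log H with hL
  have hH0 : (0 : ℝ) < H := by exact_mod_cast hH
  have hH1 : (1 : ℝ) ≤ H := by exact_mod_cast hH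
  have hL1 : 1 ≤ L := hB.L1
  have hL0 : 0 < L := by linarith
  have hx1 : 1 ≤ Real.log X := by rw [hX]; exact hB.x1
  have hx0 : 0 < Real.log X := by linarith
  have hX0 : 0 < X := by
    rw [hX]
    exact Real.rpow_pos_of_pos hL0 _
  have hX1 : 1 ≤ X := by
    by_contra hcon
    push Not at hcon
    have := Real.log_nonpos hX0.le hcon.le
    linarith
  have hq0 : (0 : ℝ) < q := by exact_mod_cast hq
  have hqe : 2 * (q : ℝ) ≤ X ^ η := by rw [hX]; exact hB.xe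
  -- (a)
  have ha : 2 * (q : ℝ) ≤ X ^ (1 - η) := by
    refine hqe.trans ?_
    exact Real.rpow_le_rpow_of_exponent_le hX1 (by linarith)
  have hXn : X ^ (1 - η) / (2 * q) ≤ n := by
    have h3 : 1 ≤ X ^ (1 - η) / (2 * q) := by
      rw [le_div_iff₀ (by positivity)]
      linarith
    have h4 : X ^ (1 - η) / (q : ℝ) = 2 * (X ^ (1 - η) / (2 * q)) := by
      field_simp
    rw [h4] at hn
    linarith
  refine ⟨?_, ?_⟩
  · rw [le_sub_iff_add_le, le_div_iff₀ hq0]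
    linarith
  -- the choice of `k`
  obtain ⟨k, hk⟩ : ∃ k : ℕ, k = ⌊2 / 5 * L / Real.log X⌋₊ := ⟨_, rfl⟩
  have hk1 : (k : ℝ) ≤ 2 / 5 * L / Real.log X := by
    rw [hk]
    exact Nat.floor_le (by positivity)
  have hk2 : 2 / 5 * L / Real.log X < k + 1 := by
    rw [hk]
    exact Nat.lt_floor_add_one _
  have hk3 : (k : ℝ) * Real.log X ≤ 2 / 5 * L := by
    rw [le_div_iff₀ (by positivity)] at hk1
    linarith
  have hk4 : 2 / 5 * L < ((k : ℝ) + 1) * Real.log X := by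
    rw [div_lt_iff₀ (by positivity)] at hk2
    linarith
  have hk0 : (0 : ℝ) ≤ k := Nat.cast_nonneg k
  -- binomial coefficient
  have hY1 : 1 ≤ X ^ (1 / 2 - 5 * η) := Real.one_le_rpow hX1 (by linarith)
  have hLX : L ≤ X ^ (1 / 2 + 3 * η) := by
    rw [hX, ← Real.rpow_mul hL0.le]
    calc L = L ^ (1 : ℝ) := (Real.rpow_one L).symm
      _ ≤ _ := Real.rpow_le_rpow_of_exponent_le hL1 (by nlinarith)
  have hkn : 2 * (k : ℝ) * X ^ (1 / 2 - 5 * η) ≤ n := by
    have h3 : 2 * (k : ℝ) ≤ L := by nlinarith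
    calc 2 * (k : ℝ) * X ^ (1 / 2 - 5 * η) ≤ X ^ (1 / 2 + 3 * η) * X ^ (1 / 2 - 5 * η) :=
          mul_le_mul_of_nonneg_right (h3.trans hLX) (by linarith)
      _ = X ^ (1 - η) / X ^ η := by
          rw [← Real.rpow_add hX0, ← Real.rpow_sub hX0]
          congr 1
          ring
      _ ≤ X ^ (1 - η) / (2 * q) :=
          div_le_div_of_nonneg_left (by positivity) (by positivity) hqe
      _ ≤ n := hXn
  have hch := choose_ge hY1 hkn
  have hch0 : (0 : ℝ) < n.choose k := lt_of_lt_of_le (by positivity) hch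
  refine ⟨k, by exact_mod_cast hch0, ?_⟩
  have hN0 : (0 : ℝ) < N := by exact_mod_cast hN
  have hd0 : (0 : ℝ) < d := by exact_mod_cast hd
  -- the terms
  have t1 : (t : ℝ) * Real.log N ≤ η * L := by
    have h3 : X ^ (1 / 2 + η) * L ^ (2 * η + 8 * η ^ 2) = L := by
      rw [hX, ← Real.rpow_mul hL0.le, ← Real.rpow_add hL0]
      have : (2 - 8 * η) * (1 / 2 + η) + (2 * η + 8 * η ^ 2) = 1 := by ring
      rw [this, Real.rpow_one]
    have h4 : 0 ≤ X ^ (1 / 2 + η) := by positivity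
    have h5 := hB.tt
    calc (t : ℝ) * Real.log N ≤ t * X ^ (1 / 2 + η) :=
          mul_le_mul_of_nonneg_left hlN (Nat.cast_nonneg t)
      _ ≤ (η * L ^ (2 * η + 8 * η ^ 2)) * X ^ (1 / 2 + η) := mul_le_mul_of_nonneg_right h5 h4
      _ = η * (X ^ (1 / 2 + η) * L ^ (2 * η + 8 * η ^ 2)) := by ring
      _ = η * L := by rw [h3]
  have t2 : Real.log 2 ≤ η * L := by
    refine le_trans ?_ hB.l24
    exact Real.log_le_log (by norm_num) (by norm_num)
  have t3 : 2 * (k : ℝ) * (-Real.log η₀) ≤ η * L := by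
    have h3 : -Real.log η₀ ≤ η * Real.log X := by rw [hX]; exact hB2.e0
    have h4 : 0 ≤ η * L := by positivity
    calc 2 * (k : ℝ) * (-Real.log η₀) ≤ 2 * (k : ℝ) * (η * Real.log X) :=
          mul_le_mul_of_nonneg_left h3 (by positivity)
      _ = 2 * η * (k * Real.log X) := by ring
      _ ≤ 2 * η * (2 / 5 * L) := mul_le_mul_of_nonneg_left hk3 (by positivity)
      _ ≤ η * L := by linarith
  have t4 : k * ((1 / 2 - 5 * η) * Real.log X) ≤ Real.log (n.choose k : ℝ) := by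
    have h3 := Real.log_le_log (by positivity) hch
    rw [Real.log_pow, Real.log_rpow hX0] at h3
    exact h3
  have t5 : Real.log X ≤ 2 * η * L := by rw [hX]; exact hB.lx
  have t6 : (1 / 5 - 2 * η) * L - η * L ≤ k * ((1 / 2 - 5 * η) * Real.log X) := by
    have h3 : 2 / 5 * L - Real.log X ≤ k * Real.log X := by linarith
    have h4 : 0 ≤ 1 / 2 - 5 * η := by linarith
    have h5 := mul_le_mul_of_nonneg_left h3 h4
    have h6 : (1 / 2 - 5 * η) * Real.log X ≤ η * L :=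
      calc (1 / 2 - 5 * η) * Real.log X ≤ (1 / 2) * Real.log X :=
            mul_le_mul_of_nonneg_right (by linarith) hx0.le
        _ ≤ (1 / 2) * (2 * η * L) := mul_le_mul_of_nonneg_left t5 (by norm_num)
        _ = η * L := by ring
    have h7 : (1 / 2 - 5 * η) * (2 / 5 * L - Real.log X)
        = (1 / 5 - 2 * η) * L - (1 / 2 - 5 * η) * Real.log X := by ring
    have h8 : (1 / 2 - 5 * η) * (k * Real.log X)
        = k * ((1 / 2 - 5 * η) * Real.log X) := by ring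
    rw [h7, h8] at h5
    linarith
  have t7 : 8 * (η * L) ≤ ε * L := by
    have := mul_le_mul_of_nonneg_right h2 hL0.le
    linarith
  have t8 : 0 ≤ η * L := mul_nonneg h0.le hL0.le
  have t9 : Real.log (2 * (H : ℝ) + 1) ≤ Real.log 3 + L := by
    rw [hL, ← Real.log_mul (by norm_num) hH0.ne']
    exact Real.log_le_log (by positivity) (by linarith)
  have t9' : 0 ≤ Real.log (2 * (H : ℝ) + 1) := Real.log_nonneg (by linarith)
  have t10 : 0 ≤ Real.log (3 : ℝ) := Real.log_nonneg (by norm_num)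
  -- splitting
  have hη₀k : 0 < η₀ ^ (2 * k) := by positivity
  have hsplit : (N : ℝ) ^ t * (((n.choose k : ℝ) * (2 * (H : ℝ) + 1) ^ d +
        (n.choose k : ℝ) ^ 2 * (d * (⌊X⌋₊ : ℝ) ^ (2 * k) * (2 * (H : ℝ) + 1) ^ (d - 1))) /
        (η₀ ^ (2 * k) * (n.choose k : ℝ) ^ 2)) =
      (N : ℝ) ^ t * (2 * (H : ℝ) + 1) ^ d / (η₀ ^ (2 * k) * (n.choose k : ℝ)) +
      (N : ℝ) ^ t * (d * (⌊X⌋₊ : ℝ) ^ (2 * k) * (2 * (H : ℝ) + 1) ^ (d - 1)) / η₀ ^ (2 * k) := by
    field_simp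
  rw [hsplit]
  have hfirst : (N : ℝ) ^ t * (2 * (H : ℝ) + 1) ^ d / (η₀ ^ (2 * k) * (n.choose k : ℝ)) ≤
      (H : ℝ) ^ ((d : ℝ) - 1 / 5 + ε) / 2 := by
    rw [← Real.log_le_log_iff (by positivity) (by positivity),
      Real.log_div (by positivity) (by positivity), Real.log_div (by positivity) (by norm_num),
      Real.log_mul (by positivity) (by positivity), Real.log_mul (by positivity) hch0.ne',
      Real.log_pow, Real.log_pow, Real.log_pow, Real.log_rpow hH0, ← hL]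
    have e1 : (d : ℝ) * Real.log (2 * (H : ℝ) + 1) ≤ d * Real.log 3 + d * L := by
      have := mul_le_mul_of_nonneg_left t9 hd0.le
      linarith
    have e2 := hB2.d3
    have e3 : ((2 * k : ℕ) : ℝ) * Real.log η₀ = -(2 * (k : ℝ) * (-Real.log η₀)) := by
      push_cast
      ring
    have e4 : ((d : ℝ) - 1 / 5 + ε) * L = d * L - 1 / 5 * L + ε * L := by ring
    have e5 : (1 / 5 - 2 * η) * L = 1 / 5 * L - 2 * (η * L) := by ring
    rw [e3, e4]
    rw [e5] at t6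
    linarith
  have hfloor : (⌊X⌋₊ : ℝ) ^ (2 * k) ≤ X ^ (2 * k) :=
    pow_le_pow_left₀ (Nat.cast_nonneg _) (Nat.floor_le hX0.le) _
  have hsecond : (N : ℝ) ^ t * (d * (⌊X⌋₊ : ℝ) ^ (2 * k) * (2 * (H : ℝ) + 1) ^ (d - 1)) /
      η₀ ^ (2 * k) ≤ (H : ℝ) ^ ((d : ℝ) - 1 / 5 + ε) / 2 := by
    have h3 : (N : ℝ) ^ t * (d * (⌊X⌋₊ : ℝ) ^ (2 * k) * (2 * (H : ℝ) + 1) ^ (d - 1)) /
        η₀ ^ (2 * k) ≤ (N : ℝ) ^ t * (d * X ^ (2 * k) * (2 * (H : ℝ) + 1) ^ (d - 1)) /
        η₀ ^ (2 * k) := by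
      gcongr
    refine h3.trans ?_
    rw [← Real.log_le_log_iff (by positivity) (by positivity),
      Real.log_div (by positivity) (by positivity), Real.log_div (by positivity) (by norm_num),
      Real.log_mul (by positivity) (by positivity), Real.log_mul (by positivity) (by positivity),
      Real.log_mul (by positivity) (by positivity), Real.log_pow, Real.log_pow, Real.log_pow,
      Real.log_pow, Real.log_rpow hH0, ← hL]
    have hd1 : ((d - 1 : ℕ) : ℝ) = d - 1 := by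
      rw [Nat.cast_sub hd, Nat.cast_one]
    have hd2 : (0 : ℝ) ≤ (d : ℝ) - 1 := by
      have : (1 : ℝ) ≤ d := by exact_mod_cast hd
      linarith
    have e1 : ((d : ℝ) - 1) * Real.log (2 * (H : ℝ) + 1) ≤ d * Real.log 3 + (d - 1) * L := by
      have := mul_le_mul_of_nonneg_left t9 hd2
      linarith
    have e2 := hB2.d3
    have e3 : ((2 * k : ℕ) : ℝ) * Real.log η₀ = -(2 * (k : ℝ) * (-Real.log η₀)) := by
      push_cast
      ring
    have e3' : ((2 * k : ℕ) : ℝ) * Real.log X = 2 * (k * Real.log X) := by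
      push_cast
      ring
    have e4 : ((d : ℝ) - 1 / 5 + ε) * L = d * L - 1 / 5 * L + ε * L := by ring
    have e5 : ((d : ℝ) - 1) * L = d * L - L := by ring
    have e6 := hB2.ld
    rw [e3, e3', e4, hd1]
    rw [e5] at e1
    linarith
  linarith

theorem parb : Pool.Agent.H925R3.DD.PARB := by
  intro t q d η₀ hq hd hη₀ _ ε hε
  set η : ℝ := min (ε / 8) (1 / 64) with hη
  have h0 : 0 < η := lt_min (by positivity) (by norm_num)
  have h1 : η ≤ 1 / 64 := min_le_right _ _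
  have h2 : η ≤ ε / 8 := min_le_left _ _
  have hlog : Tendsto (fun H : ℕ => Real.log (H : ℝ)) atTop atTop :=
    Real.tendsto_log_atTop.comp tendsto_natCast_atTop_atTop
  obtain ⟨H₀, hH₀⟩ := eventually_atTop.1 (((hlog.eventually (big t q h0 h1)).and
    (hlog.eventually (big2 d η₀ h0 h1))).and (eventually_ge_atTop 1))
  refine ⟨8 * η, by positivity, by linarith, η, h0, by linarith, H₀, ?_⟩
  intro H hH X hX n hn N hN hlN
  obtain ⟨⟨hB, hB2⟩, hH1⟩ := hH₀ H hH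
  exact main hq hd hη₀ h0 h1 h2 hH1 hB hB2 hX hn hN hlN

end Pool.Agent.H619R2.DDPARB
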