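import Pool.Agent.H175G.Stmts2

/-! Assembly of the statement about the types `N, D₀, …, D₄`. -/

namespace Pool.Agent.H619R2.ND

open Finset Classical
open Pool.Agent.H175G

variable {V : Type} {G : SimpleGraph V}

lemma miss (hp : NoP23 G) {c0 c1 c2 c3 c4 : V} (hc : C5c G c0 c1 c2 c3 c4)
    {d0 d1 d1' : V} (h0 : TD G c0 c1 c2 c3 c4 d0) (h1 : TD G c1 c2 c3 c4 c0 d1)
    (h1' : TD G c1 c2 c3 c4 c0 d1') (hne : d1 ≠ d1') (ha : ¬ G.Adj d0 d1) : G.Adj d0 d1' := by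
  by_contra hn
  gp 2

lemma miss' (hp : NoP23 G) {c0 c1 c2 c3 c4 : V} (hc : C5c G c0 c1 c2 c3 c4)
    {d0 d0' d1 : V} (h0 : TD G c0 c1 c2 c3 c4 d0) (h0' : TD G c0 c1 c2 c3 c4 d0')
    (h1 : TD G c1 c2 c3 c4 c0 d1) (hne : d0 ≠ d0') (ha : ¬ G.Adj d0 d1) : G.Adj d0' d1 := by
  by_contra hn
  gp 2

lemma same (hp : NoP23 G) {c0 c1 c2 c3 c4 : V} (hc : C5c G c0 c1 c2 c3 c4)
    {d0 d1 d4 : V} (h0 : TD G c0 c1 c2 c3 c4 d0) (h1 : TD G c1 c2 c3 c4 c0 d1)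
    (h4 : TD G c4 c0 c1 c2 c3 d4) (ha : ¬ G.Adj d0 d1) (hb : G.Adj d4 d0) : G.Adj d4 d1 := by
  by_contra hn
  gp 2

lemma other (hg : NoGem G) (hp : NoP23 G) {c0 c1 c2 c3 c4 : V} (hc : C5c G c0 c1 c2 c3 c4)
    {d0 d1 d1' d4 : V} (h0 : TD G c0 c1 c2 c3 c4 d0) (h1 : TD G c1 c2 c3 c4 c0 d1)
    (h1' : TD G c1 c2 c3 c4 c0 d1') (hne : d1 ≠ d1')
    (h4 : TD G c4 c0 c1 c2 c3 d4) (ha : ¬ G.Adj d0 d1) (hb : G.Adj d4 d0) : ¬ G.Adj d4 d1' := by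
  intro hn
  gp 2

lemma indN (hp : NoP23 G) {c0 c1 c2 c3 c4 : V} (hc : C5c G c0 c1 c2 c3 c4)
    {x y : V} (h0 : TN G c0 c1 c2 c3 c4 x) (h1 : TN G c0 c1 c2 c3 c4 y) : ¬ G.Adj x y := by
  intro hn
  gp 2

lemma c5rot {c0 c1 c2 c3 c4 : V} (h : C5c G c0 c1 c2 c3 c4) : C5c G c1 c2 c3 c4 c0 := by
  obtain ⟨h1, h2, h3, h4, h5, h6, h7, h8, h9, h10⟩ := h
  exact ⟨h2, h3, h4, h5, h1, h8, h9, h10, fun h => h6 h.symm, fun h => h7 h.symm⟩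

lemma c5rfl {c0 c1 c2 c3 c4 : V} (h : C5c G c0 c1 c2 c3 c4) : C5c G c1 c0 c4 c3 c2 := by
  obtain ⟨h1, h2, h3, h4, h5, h6, h7, h8, h9, h10⟩ := h
  exact ⟨h1.symm, h5.symm, h4.symm, h3.symm, h2.symm, h9, h8, h7, h6, fun h => h10 h.symm⟩

lemma tdrfl {c0 c1 c2 c3 c4 x : V} (h : TD G c0 c1 c2 c3 c4 x) : TD G c0 c4 c3 c2 c1 x := by
  obtain ⟨h1, h2, h3, h4, h5, h6⟩ := h
  exact ⟨h1, h5, h4, h3, h2, h6⟩

lemma rot {c0 c1 c2 c3 c4 : V} {N D0 D1 D2 D3 D4 : Finset V}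
    (h : NDCfg G c0 c1 c2 c3 c4 N D0 D1 D2 D3 D4) :
    NDCfg G c1 c2 c3 c4 c0 N D1 D2 D3 D4 D0 := by
  obtain ⟨hc, hN, h0, h1, h2, h3, h4⟩ := h
  refine ⟨c5rot hc, ?_, h1, h2, h3, h4, h0⟩
  intro x hx
  obtain ⟨a0, a1, a2, a3, a4⟩ := hN x hx
  exact ⟨a1, a2, a3, a4, a0⟩

/-- there is at most one link -/
lemma uniq (hg : NoGem G) (hp : NoP23 G) {c0 c1 c2 c3 c4 : V} (hc : C5c G c0 c1 c2 c3 c4)
    (D4 : Finset V) (h4 : ∀ x ∈ D4, TD G c4 c0 c1 c2 c3 x) (hcard : 3 ≤ D4.card)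
    {d0 d0' d1 d1' : V} (h0 : TD G c0 c1 c2 c3 c4 d0) (h0' : TD G c0 c1 c2 c3 c4 d0')
    (h1 : TD G c1 c2 c3 c4 c0 d1) (h1' : TD G c1 c2 c3 c4 c0 d1')
    (ha : ¬ G.Adj d0 d1) (ha' : ¬ G.Adj d0' d1') : d0 = d0' ∧ d1 = d1' := by
  have hc' : C5c G c4 c0 c1 c2 c3 := c5rot (c5rot (c5rot (c5rot hc)))
  by_cases e0 : d0 = d0'
  · subst e0
    refine ⟨rfl, ?_⟩
    by_contra e1
    exact ha' (miss hp hc h0 h1 h1' e1 ha)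
  exfalso
  by_cases e1 : d1 = d1'
  · subst e1
    exact ha' (miss' hp hc h0 h0' h1 e0 ha)
  -- a common neighbour in `D₄`
  have key : ∀ d : V, TD G c0 c1 c2 c3 c4 d → (D4.filter (fun x => ¬ G.Adj x d)).card ≤ 1 := by
    intro d hd
    rw [Finset.card_le_one]
    intro x hx y hy
    rw [mem_filter] at hx hy
    by_contra hne
    exact hy.2 (miss' hp hc' (h4 x hx.1) (h4 y hy.1) hd hne hx.2)
  have hex : ∃ x ∈ D4, G.Adj x d0 ∧ G.Adj x d0' := by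
    by_contra hcon
    push Not at hcon
    have hsub : D4 ⊆ D4.filter (fun x => ¬ G.Adj x d0) ∪ D4.filter (fun x => ¬ G.Adj x d0') := by
      intro x hx
      rw [mem_union, mem_filter, mem_filter]
      by_cases h : G.Adj x d0
      · exact Or.inr ⟨hx, hcon x hx h⟩
      · exact Or.inl ⟨hx, h⟩
    have := (card_le_card hsub).trans (card_union_le _ _)
    have k1 := key d0 h0
    have k2 := key d0' h0'
    omega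
  obtain ⟨d4, hd4, b1, b2⟩ := hex
  exact other hg hp hc h0 h1 h1' e1 (h4 d4 hd4) ha b1 (same hp hc h0' h1' (h4 d4 hd4) ha' b2)

/-- delete one vertex, using `D₄` -/
lemma del4 (hg : NoGem G) (hp : NoP23 G) {c0 c1 c2 c3 c4 : V} {N D0 D1 D2 D3 D4 : Finset V}
    (h : NDCfg G c0 c1 c2 c3 c4 N D0 D1 D2 D3 D4) (hcard : 7 ≤ D4.card) :
    ∃ z, ∀ x ∈ D0, x ≠ z → ∀ y ∈ D1, G.Adj x y := by
  obtain ⟨hc, hN, h0, h1, h2, h3, h4⟩ := h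
  by_cases hl : ∃ x ∈ D0, ∃ y ∈ D1, ¬ G.Adj x y
  · obtain ⟨d0, hd0, d1, hd1, ha⟩ := hl
    refine ⟨d0, fun x hx hxz y hy => ?_⟩
    by_contra hn
    exact hxz (uniq hg hp hc D4 h4 (by omega) (h0 d0 hd0) (h0 x hx) (h1 d1 hd1) (h1 y hy) ha hn).1.symm
  · push Not at hl
    exact ⟨c0, fun x hx _ y hy => hl x hx y hy⟩

/-- delete one vertex, using `D₂` -/
lemma del2 (hg : NoGem G) (hp : NoP23 G) {c0 c1 c2 c3 c4 : V} {N D0 D1 D2 D3 D4 : Finset V}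
    (h : NDCfg G c0 c1 c2 c3 c4 N D0 D1 D2 D3 D4) (hcard : 7 ≤ D2.card) :
    ∃ z, ∀ x ∈ D0, x ≠ z → ∀ y ∈ D1, G.Adj x y := by
  obtain ⟨hc, hN, h0, h1, h2, h3, h4⟩ := h
  by_cases hl : ∃ x ∈ D0, ∃ y ∈ D1, ¬ G.Adj x y
  · obtain ⟨d0, hd0, d1, hd1, ha⟩ := hl
    refine ⟨d0, fun x hx hxz y hy => ?_⟩
    by_contra hn
    have hu := uniq hg hp (c5rfl hc) D2 (fun x hx => tdrfl (h2 x hx)) (by omega)
      (tdrfl (h1 d1 hd1)) (tdrfl (h1 y hy)) (tdrfl (h0 d0 hd0)) (tdrfl (h0 x hx))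
      (fun h => ha h.symm) (fun h => hn h.symm)
    exact hxz hu.2.symm
  · push Not at hl
    exact ⟨c0, fun x hx _ y hy => hl x hx y hy⟩

lemma bdel {K c : ℕ} {A B X : Finset V} (h : BD G K B) (hX : X.card ≤ c) (hs : A \ X ⊆ B) :
    BD G ((K + 1) * 2 ^ c) A := BD.of_sdiff (h.sub hs) hX

lemma cfgsub {c0 c1 c2 c3 c4 : V} {N D0 D1 D2 D3 D4 E0 E1 E2 E3 E4 : Finset V}
    (h : NDCfg G c0 c1 c2 c3 c4 N D0 D1 D2 D3 D4) (s0 : E0 ⊆ D0) (s1 : E1 ⊆ D1) (s2 : E2 ⊆ D2)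
    (s3 : E3 ⊆ D3) (s4 : E4 ⊆ D4) : NDCfg G c0 c1 c2 c3 c4 N E0 E1 E2 E3 E4 := by
  obtain ⟨hc, hN, h0, h1, h2, h3, h4⟩ := h
  exact ⟨hc, hN, fun x hx => h0 x (s0 hx), fun x hx => h1 x (s1 hx), fun x hx => h2 x (s2 hx),
    fun x hx => h3 x (s3 hx), fun x hx => h4 x (s4 hx)⟩

lemma card_er {D : Finset V} {z : V} (h : 7 ≤ D.card) : 3 ≤ (D.erase z).card := by
  have := Finset.pred_card_le_card_erase (s := D) (a := z)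
  omega

lemma comp_er {D E : Finset V} {z w : V} (h : ∀ x ∈ D, x ≠ z → ∀ y ∈ E, G.Adj x y) :
    Comp G (D.erase z) (E.erase w) := by
  intro x hx y hy
  rw [mem_erase] at hx hy
  exact h x hx.2 hx.1 y hy.2

lemma comp_er' {D E : Finset V} {z : V} (h : ∀ x ∈ D, x ≠ z → ∀ y ∈ E, G.Adj x y) :
    Comp G (D.erase z) E := by
  intro x hx y hy
  rw [mem_erase] at hx
  exact h x hx.2 hx.1 y hy

/-- all five -/
lemma L5 {K : ℕ} (H : ∀ (V : Type) (G : SimpleGraph V), NoGem G → NoP23 G →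
    ∀ (c0 c1 c2 c3 c4 : V) (N D0 D1 D2 D3 D4 : Finset V), NDCfg G c0 c1 c2 c3 c4 N D0 D1 D2 D3 D4 →
    3 ≤ D0.card → 3 ≤ D1.card → 3 ≤ D2.card → 3 ≤ D3.card → 3 ≤ D4.card →
    Comp G D0 D1 → Comp G D1 D2 → Comp G D2 D3 → Comp G D3 D4 → Comp G D4 D0 →
    BD G K (N ∪ D0 ∪ D1 ∪ D2 ∪ D3 ∪ D4)) (hg : NoGem G) (hp : NoP23 G) {c0 c1 c2 c3 c4 : V}
    {N D0 D1 D2 D3 D4 : Finset V} (h : NDCfg G c0 c1 c2 c3 c4 N D0 D1 D2 D3 D4)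
    (b0 : 7 ≤ D0.card) (b1 : 7 ≤ D1.card) (b2 : 7 ≤ D2.card) (b3 : 7 ≤ D3.card)
    (b4 : 7 ≤ D4.card) : BD G ((K + 1) * 2 ^ 5) (N ∪ D0 ∪ D1 ∪ D2 ∪ D3 ∪ D4) := by
  obtain ⟨z0, e0⟩ := del4 hg hp h b4
  obtain ⟨z1, e1⟩ := del4 hg hp (rot h) b0
  obtain ⟨z2, e2⟩ := del4 hg hp (rot (rot h)) b1
  obtain ⟨z3, e3⟩ := del4 hg hp (rot (rot (rot h))) b2
  obtain ⟨z4, e4⟩ := del4 hg hp (rot (rot (rot (rot h)))) b3
  have hh := H V G hg hp c0 c1 c2 c3 c4 N (D0.erase z0) (D1.erase z1) (D2.erase z2) (D3.erase z3)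
    (D4.erase z4) (cfgsub h (erase_subset _ _) (erase_subset _ _) (erase_subset _ _)
      (erase_subset _ _) (erase_subset _ _)) (card_er b0) (card_er b1) (card_er b2) (card_er b3)
    (card_er b4) (comp_er e0) (comp_er e1) (comp_er e2) (comp_er e3) (comp_er e4)
  refine bdel (X := {z0, z1, z2, z3, z4}) hh ?_ ?_
  · exact card_le_five
  · intro x hx
    simp only [mem_sdiff, mem_union, mem_insert, mem_singleton, mem_erase] at hx ⊢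
    tauto

/-- `D₀, D₁, D₂, D₃` -/
lemma L4 {K : ℕ} (H : ∀ (V : Type) (G : SimpleGraph V), NoGem G → NoP23 G →
    ∀ (c0 c1 c2 c3 c4 : V) (N D0 D1 D2 D3 : Finset V), NDCfg G c0 c1 c2 c3 c4 N D0 D1 D2 D3 ∅ →
    3 ≤ D0.card → 3 ≤ D1.card → 3 ≤ D2.card → 3 ≤ D3.card →
    Comp G D0 D1 → Comp G D1 D2 → Comp G D2 D3 → BD G K (N ∪ D0 ∪ D1 ∪ D2 ∪ D3))
    (hg : NoGem G) (hp : NoP23 G) {c0 c1 c2 c3 c4 : V}
    {N D0 D1 D2 D3 : Finset V} (h : NDCfg G c0 c1 c2 c3 c4 N D0 D1 D2 D3 ∅)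
    (b0 : 7 ≤ D0.card) (b1 : 7 ≤ D1.card) (b2 : 7 ≤ D2.card) (b3 : 7 ≤ D3.card) :
    BD G ((K + 1) * 2 ^ 5) (N ∪ D0 ∪ D1 ∪ D2 ∪ D3 ∪ ∅) := by
  obtain ⟨z0, e0⟩ := del2 hg hp h b2
  obtain ⟨z1, e1⟩ := del4 hg hp (rot h) b0
  obtain ⟨z2, e2⟩ := del4 hg hp (rot (rot h)) b1
  have hh := H V G hg hp c0 c1 c2 c3 c4 N (D0.erase z0) (D1.erase z1) (D2.erase z2) D3
    (cfgsub h (erase_subset _ _) (erase_subset _ _) (erase_subset _ _)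
      (Subset.refl _) (Subset.refl _)) (card_er b0) (card_er b1) (card_er b2) (by omega)
    (comp_er e0) (comp_er e1) (comp_er' e2)
  refine bdel (X := {z0, z1, z2}) hh (card_le_three.trans (by omega)) ?_
  intro x hx
  simp only [mem_sdiff, mem_union, mem_insert, mem_singleton, mem_erase, notMem_empty,
    or_false] at hx ⊢
  tauto

/-- `D₀, D₁, D₂` -/
lemma L3 {K : ℕ} (H : ∀ (V : Type) (G : SimpleGraph V), NoGem G → NoP23 G →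
    ∀ (c0 c1 c2 c3 c4 : V) (N D0 D1 D2 : Finset V), NDCfg G c0 c1 c2 c3 c4 N D0 D1 D2 ∅ ∅ →
    3 ≤ D0.card → 3 ≤ D1.card → 3 ≤ D2.card → Comp G D0 D1 → Comp G D1 D2 →
    BD G K (N ∪ D0 ∪ D1 ∪ D2))
    (hg : NoGem G) (hp : NoP23 G) {c0 c1 c2 c3 c4 : V}
    {N D0 D1 D2 : Finset V} (h : NDCfg G c0 c1 c2 c3 c4 N D0 D1 D2 ∅ ∅)
    (b0 : 7 ≤ D0.card) (b1 : 7 ≤ D1.card) (b2 : 7 ≤ D2.card) :
    BD G ((K + 1) * 2 ^ 5) (N ∪ D0 ∪ D1 ∪ D2 ∪ ∅ ∪ ∅) := by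
  obtain ⟨z0, e0⟩ := del2 hg hp h b2
  obtain ⟨z1, e1⟩ := del4 hg hp (rot h) b0
  have hh := H V G hg hp c0 c1 c2 c3 c4 N (D0.erase z0) (D1.erase z1) D2
    (cfgsub h (erase_subset _ _) (erase_subset _ _) (Subset.refl _)
      (Subset.refl _) (Subset.refl _)) (card_er b0) (card_er b1) (by omega)
    (comp_er e0) (comp_er' e1)
  refine bdel (X := {z0, z1}) hh (card_le_two.trans (by omega)) ?_
  intro x hx
  simp only [mem_sdiff, mem_union, mem_insert, mem_singleton, mem_erase, notMem_empty,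
    or_false] at hx ⊢
  tauto

/-- `D₀` and `D₂` -/
lemma L2 {K : ℕ} (H : ∀ (V : Type) (G : SimpleGraph V), NoGem G → NoP23 G →
    ∀ (v : V) (M N : Finset V), ZCfg G v M N → BD G K (M ∪ N))
    (hg : NoGem G) (hp : NoP23 G) {c0 c1 c2 c3 c4 : V}
    {N D0 D2 : Finset V} (h : NDCfg G c0 c1 c2 c3 c4 N D0 ∅ D2 ∅ ∅) :
    BD G K (N ∪ D0 ∪ ∅ ∪ D2 ∪ ∅ ∪ ∅) := by
  obtain ⟨hc, hN, h0, h1, h2, h3, h4⟩ := h
  have hh := H V G hg hp c1 (D0 ∪ D2) N ⟨?_, ?_, ?_, ?_⟩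
  · refine hh.sub ?_
    intro x hx
    simp only [mem_union, notMem_empty, or_false] at hx ⊢
    tauto
  · intro x hx
    rw [mem_union] at hx
    rcases hx with hx | hx
    · exact (h0 x hx).2.1
    · exact (h2 x hx).2.2.2.2.1
  · intro x hx
    exact (hN x hx).2.1
  · intro x hx y hy
    exact indN hp hc (hN x hx) (hN y hy)
  · intro hx
    exact (hN c1 hx).1 hc.1

lemma rotS {K : ℕ} {N D0 D1 D2 D3 D4 : Finset V} (h : BD G K (N ∪ D1 ∪ D2 ∪ D3 ∪ D4 ∪ D0)) :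
    BD G K (N ∪ D0 ∪ D1 ∪ D2 ∪ D3 ∪ D4) :=
  h.sub (by intro x hx; simp only [mem_union] at hx ⊢; tauto)

/-- every pattern of empty and big sets is a rotation of a canonical one -/
lemma pattern
    (Cf : V → V → V → V → V → Finset V → Finset V → Finset V → Finset V → Finset V → Prop)
    (P : Finset V → Finset V → Finset V → Finset V → Finset V → Prop) (big : Finset V → Prop)
    (rot : ∀ {c0 c1 c2 c3 c4 : V} {D0 D1 D2 D3 D4 : Finset V},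
      Cf c0 c1 c2 c3 c4 D0 D1 D2 D3 D4 → Cf c1 c2 c3 c4 c0 D1 D2 D3 D4 D0)
    (rotS : ∀ {D0 D1 D2 D3 D4 : Finset V}, P D1 D2 D3 D4 D0 → P D0 D1 D2 D3 D4)
    (C5 : ∀ {c0 c1 c2 c3 c4 : V} {D0 D1 D2 D3 D4 : Finset V},
      Cf c0 c1 c2 c3 c4 D0 D1 D2 D3 D4 → big D0 → big D1 → big D2 → big D3 → big D4 →
      P D0 D1 D2 D3 D4)
    (C4 : ∀ {c0 c1 c2 c3 c4 : V} {D0 D1 D2 D3 : Finset V},
      Cf c0 c1 c2 c3 c4 D0 D1 D2 D3 ∅ → big D0 → big D1 → big D2 → big D3 → P D0 D1 D2 D3 ∅)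
    (C3 : ∀ {c0 c1 c2 c3 c4 : V} {D0 D1 D2 : Finset V},
      Cf c0 c1 c2 c3 c4 D0 D1 D2 ∅ ∅ → big D0 → big D1 → big D2 → P D0 D1 D2 ∅ ∅)
    (C3' : ∀ {c0 c1 c2 c3 c4 : V} {D0 D1 D3 : Finset V},
      Cf c0 c1 c2 c3 c4 D0 D1 ∅ D3 ∅ → big D0 → big D1 → big D3 → P D0 D1 ∅ D3 ∅)
    (C2 : ∀ {c0 c1 c2 c3 c4 : V} {D0 D1 : Finset V},
      Cf c0 c1 c2 c3 c4 D0 D1 ∅ ∅ ∅ → P D0 D1 ∅ ∅ ∅)
    (C2' : ∀ {c0 c1 c2 c3 c4 : V} {D0 D2 : Finset V},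
      Cf c0 c1 c2 c3 c4 D0 ∅ D2 ∅ ∅ → P D0 ∅ D2 ∅ ∅)
    {c0 c1 c2 c3 c4 : V} {D0 D1 D2 D3 D4 : Finset V} (h : Cf c0 c1 c2 c3 c4 D0 D1 D2 D3 D4)
    (b0 : D0 = ∅ ∨ big D0) (b1 : D1 = ∅ ∨ big D1) (b2 : D2 = ∅ ∨ big D2) (b3 : D3 = ∅ ∨ big D3)
    (b4 : D4 = ∅ ∨ big D4) : P D0 D1 D2 D3 D4 := by
  have r1 := rot h
  have r2 := rot r1
  have r3 := rot r2
  have r4 := rot r3
  rcases b0 with rfl | b0 <;> rcases b1 with rfl | b1 <;> rcases b2 with rfl | b2 <;>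
    rcases b3 with rfl | b3 <;> rcases b4 with rfl | b4 <;>
    first
    | exact C2' h
    | exact rotS (C2' r1)
    | exact rotS (rotS (C2' r2))
    | exact rotS (rotS (rotS (C2' r3)))
    | exact rotS (rotS (rotS (rotS (C2' r4))))
    | exact C2 h
    | exact rotS (C2 r1)
    | exact rotS (rotS (C2 r2))
    | exact rotS (rotS (rotS (C2 r3)))
    | exact rotS (rotS (rotS (rotS (C2 r4))))
    | exact C3 h (by assumption) (by assumption) (by assumption)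
    | exact rotS (C3 r1 (by assumption) (by assumption) (by assumption))
    | exact rotS (rotS (C3 r2 (by assumption) (by assumption) (by assumption)))
    | exact rotS (rotS (rotS (C3 r3 (by assumption) (by assumption) (by assumption))))
    | exact rotS (rotS (rotS (rotS (C3 r4 (by assumption) (by assumption) (by assumption)))))
    | exact C3' h (by assumption) (by assumption) (by assumption)
    | exact rotS (C3' r1 (by assumption) (by assumption) (by assumption))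
    | exact rotS (rotS (C3' r2 (by assumption) (by assumption) (by assumption)))
    | exact rotS (rotS (rotS (C3' r3 (by assumption) (by assumption) (by assumption))))
    | exact rotS (rotS (rotS (rotS (C3' r4 (by assumption) (by assumption) (by assumption)))))
    | exact C4 h (by assumption) (by assumption) (by assumption) (by assumption)
    | exact rotS (C4 r1 (by assumption) (by assumption) (by assumption) (by assumption))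
    | exact rotS (rotS (C4 r2 (by assumption) (by assumption) (by assumption) (by assumption)))
    | exact rotS (rotS (rotS (C4 r3 (by assumption) (by assumption) (by assumption)
        (by assumption))))
    | exact rotS (rotS (rotS (rotS (C4 r4 (by assumption) (by assumption) (by assumption)
        (by assumption)))))
    | exact C5 h b0 b1 b2 b3 b4

lemma small (D : Finset V) : ∃ X E : Finset V, X.card ≤ 6 ∧ E ⊆ D ∧ (E = ∅ ∨ 7 ≤ E.card) ∧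
    ∀ x ∈ D, x ∈ X ∨ x ∈ E := by
  by_cases hD : D.card ≤ 6
  · exact ⟨D, ∅, hD, empty_subset _, Or.inl rfl, fun x hx => Or.inl hx⟩
  · exact ⟨∅, D, by simp, Subset.refl _, Or.inr (by omega), fun x hx => Or.inr hx⟩

lemma cover {R N D0 D1 D2 D3 D4 X0 X1 X2 X3 X4 E0 E1 E2 E3 E4 : Finset V}
    (hR : ∀ x ∈ R, x ∈ N ∨ x ∈ D0 ∨ x ∈ D1 ∨ x ∈ D2 ∨ x ∈ D3 ∨ x ∈ D4)
    (m0 : ∀ x ∈ D0, x ∈ X0 ∨ x ∈ E0) (m1 : ∀ x ∈ D1, x ∈ X1 ∨ x ∈ E1)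
    (m2 : ∀ x ∈ D2, x ∈ X2 ∨ x ∈ E2) (m3 : ∀ x ∈ D3, x ∈ X3 ∨ x ∈ E3)
    (m4 : ∀ x ∈ D4, x ∈ X4 ∨ x ∈ E4) :
    R \ (X0 ∪ X1 ∪ X2 ∪ X3 ∪ X4) ⊆ N ∪ E0 ∪ E1 ∪ E2 ∪ E3 ∪ E4 := by
  intro x hx
  rw [mem_sdiff] at hx
  obtain ⟨hxR, hxX⟩ := hx
  simp only [mem_union, not_or] at hxX
  obtain ⟨⟨⟨⟨y0, y1⟩, y2⟩, y3⟩, y4⟩ := hxX
  simp only [mem_union]
  rcases hR x hxR with h | h | h | h | h | h
  · exact Or.inl (Or.inl (Or.inl (Or.inl (Or.inl h))))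
  · rcases m0 x h with h | h
    · exact absurd h y0
    · exact Or.inl (Or.inl (Or.inl (Or.inl (Or.inr h))))
  · rcases m1 x h with h | h
    · exact absurd h y1
    · exact Or.inl (Or.inl (Or.inl (Or.inr h)))
  · rcases m2 x h with h | h
    · exact absurd h y2
    · exact Or.inl (Or.inl (Or.inr h))
  · rcases m3 x h with h | h
    · exact absurd h y3
    · exact Or.inl (Or.inr h)
  · rcases m4 x h with h | h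
    · exact absurd h y4
    · exact Or.inr h

theorem nd_stmt (hZ : ZStmt) (h01 : ND01Stmt) (h012 : ND012Stmt) (h013 : ND013Stmt)
    (h0123 : ND0123Stmt) (h5 : ND5Stmt) : NDStmt := by
  obtain ⟨KZ, HZ⟩ := hZ
  obtain ⟨K1, H1⟩ := h01
  obtain ⟨K2, H2⟩ := h012
  obtain ⟨K3, H3⟩ := h013
  obtain ⟨K4, H4⟩ := h0123
  obtain ⟨K5, H5⟩ := h5
  set K := KZ + K1 + (K2 + 1) * 2 ^ 5 + K3 + (K4 + 1) * 2 ^ 5 + (K5 + 1) * 2 ^ 5 with hK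
  refine ⟨(K + 1) * 2 ^ 30, ?_⟩
  intro V G hg hp c0 c1 c2 c3 c4 hc R hR
  -- canonical positions
  have C5 : ∀ {c0 c1 c2 c3 c4 : V} {N D0 D1 D2 D3 D4 : Finset V},
      NDCfg G c0 c1 c2 c3 c4 N D0 D1 D2 D3 D4 → 7 ≤ D0.card → 7 ≤ D1.card → 7 ≤ D2.card →
      7 ≤ D3.card → 7 ≤ D4.card → BD G K (N ∪ D0 ∪ D1 ∪ D2 ∪ D3 ∪ D4) :=
    fun h b0 b1 b2 b3 b4 => (L5 H5 hg hp h b0 b1 b2 b3 b4).mono (by omega)
  have C4 : ∀ {c0 c1 c2 c3 c4 : V} {N D0 D1 D2 D3 : Finset V},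
      NDCfg G c0 c1 c2 c3 c4 N D0 D1 D2 D3 ∅ → 7 ≤ D0.card → 7 ≤ D1.card → 7 ≤ D2.card →
      7 ≤ D3.card → BD G K (N ∪ D0 ∪ D1 ∪ D2 ∪ D3 ∪ ∅) :=
    fun h b0 b1 b2 b3 => (L4 H4 hg hp h b0 b1 b2 b3).mono (by omega)
  have C3 : ∀ {c0 c1 c2 c3 c4 : V} {N D0 D1 D2 : Finset V},
      NDCfg G c0 c1 c2 c3 c4 N D0 D1 D2 ∅ ∅ → 7 ≤ D0.card → 7 ≤ D1.card → 7 ≤ D2.card →
      BD G K (N ∪ D0 ∪ D1 ∪ D2 ∪ ∅ ∪ ∅) :=
    fun h b0 b1 b2 => (L3 H2 hg hp h b0 b1 b2).mono (by omega)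
  have C3' : ∀ {c0 c1 c2 c3 c4 : V} {N D0 D1 D3 : Finset V},
      NDCfg G c0 c1 c2 c3 c4 N D0 D1 ∅ D3 ∅ → 7 ≤ D0.card → 7 ≤ D1.card → 7 ≤ D3.card →
      BD G K (N ∪ D0 ∪ D1 ∪ ∅ ∪ D3 ∪ ∅) :=
    fun {c0 c1 c2 c3 c4 N D0 D1 D3} h b0 b1 b3 =>
      ((H3 V G hg hp c0 c1 c2 c3 c4 N D0 D1 D3 h (by omega) (by omega) (by omega)).mono
        (by omega)).sub (by
          intro x hx; simp only [mem_union, notMem_empty, or_false] at hx ⊢; tauto)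
  have C2 : ∀ {c0 c1 c2 c3 c4 : V} {N D0 D1 : Finset V},
      NDCfg G c0 c1 c2 c3 c4 N D0 D1 ∅ ∅ ∅ → BD G K (N ∪ D0 ∪ D1 ∪ ∅ ∪ ∅ ∪ ∅) :=
    fun {c0 c1 c2 c3 c4 N D0 D1} h =>
      ((H1 V G hg hp c0 c1 c2 c3 c4 N D0 D1 h).mono (by omega)).sub (by
          intro x hx; simp only [mem_union, notMem_empty, or_false] at hx ⊢; tauto)
  have C2' : ∀ {c0 c1 c2 c3 c4 : V} {N D0 D2 : Finset V},
      NDCfg G c0 c1 c2 c3 c4 N D0 ∅ D2 ∅ ∅ → BD G K (N ∪ D0 ∪ ∅ ∪ D2 ∪ ∅ ∪ ∅) :=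
    fun h => (L2 HZ hg hp h).mono (by omega)
  -- every pattern is a rotation of a canonical one
  have main : ∀ {N D0 D1 D2 D3 D4 : Finset V}, NDCfg G c0 c1 c2 c3 c4 N D0 D1 D2 D3 D4 →
      (D0 = ∅ ∨ 7 ≤ D0.card) → (D1 = ∅ ∨ 7 ≤ D1.card) → (D2 = ∅ ∨ 7 ≤ D2.card) →
      (D3 = ∅ ∨ 7 ≤ D3.card) → (D4 = ∅ ∨ 7 ≤ D4.card) →
      BD G K (N ∪ D0 ∪ D1 ∪ D2 ∪ D3 ∪ D4) := by
    intro N D0 D1 D2 D3 D4 h b0 b1 b2 b3 b4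
    exact pattern (fun c0 c1 c2 c3 c4 D0 D1 D2 D3 D4 => NDCfg G c0 c1 c2 c3 c4 N D0 D1 D2 D3 D4)
      (fun D0 D1 D2 D3 D4 => BD G K (N ∪ D0 ∪ D1 ∪ D2 ∪ D3 ∪ D4)) (fun D => 7 ≤ D.card)
      (fun h => rot h) (fun h => rotS h) (fun h => C5 h) (fun h => C4 h) (fun h => C3 h)
      (fun h => C3' h) (fun h => C2 h) (fun h => C2' h) h b0 b1 b2 b3 b4
  -- the small sets are deleted
  obtain ⟨N, hN⟩ : ∃ N : Finset V, ∀ x, x ∈ N ↔ x ∈ R ∧ TN G c0 c1 c2 c3 c4 x :=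
    ⟨R.filter (fun x => TN G c0 c1 c2 c3 c4 x), fun x => mem_filter⟩
  obtain ⟨D0, hD0⟩ : ∃ N : Finset V, ∀ x, x ∈ N ↔ x ∈ R ∧ TD G c0 c1 c2 c3 c4 x :=
    ⟨R.filter (fun x => TD G c0 c1 c2 c3 c4 x), fun x => mem_filter⟩
  obtain ⟨D1, hD1⟩ : ∃ N : Finset V, ∀ x, x ∈ N ↔ x ∈ R ∧ TD G c1 c2 c3 c4 c0 x :=
    ⟨R.filter (fun x => TD G c1 c2 c3 c4 c0 x), fun x => mem_filter⟩
  obtain ⟨D2, hD2⟩ : ∃ N : Finset V, ∀ x, x ∈ N ↔ x ∈ R ∧ TD G c2 c3 c4 c0 c1 x :=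
    ⟨R.filter (fun x => TD G c2 c3 c4 c0 c1 x), fun x => mem_filter⟩
  obtain ⟨D3, hD3⟩ : ∃ N : Finset V, ∀ x, x ∈ N ↔ x ∈ R ∧ TD G c3 c4 c0 c1 c2 x :=
    ⟨R.filter (fun x => TD G c3 c4 c0 c1 c2 x), fun x => mem_filter⟩
  obtain ⟨D4, hD4⟩ : ∃ N : Finset V, ∀ x, x ∈ N ↔ x ∈ R ∧ TD G c4 c0 c1 c2 c3 x :=
    ⟨R.filter (fun x => TD G c4 c0 c1 c2 c3 x), fun x => mem_filter⟩
  have hcfg : NDCfg G c0 c1 c2 c3 c4 N D0 D1 D2 D3 D4 :=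
    ⟨hc, fun x hx => ((hN x).1 hx).2, fun x hx => ((hD0 x).1 hx).2, fun x hx => ((hD1 x).1 hx).2,
      fun x hx => ((hD2 x).1 hx).2, fun x hx => ((hD3 x).1 hx).2, fun x hx => ((hD4 x).1 hx).2⟩
  have hR' : ∀ x ∈ R, x ∈ N ∨ x ∈ D0 ∨ x ∈ D1 ∨ x ∈ D2 ∨ x ∈ D3 ∨ x ∈ D4 := by
    intro x hx
    rcases hR x hx with h | h | h | h | h | h
    · exact Or.inl ((hN x).2 ⟨hx, h⟩)
    · exact Or.inr (Or.inl ((hD0 x).2 ⟨hx, h⟩))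
    · exact Or.inr (Or.inr (Or.inl ((hD1 x).2 ⟨hx, h⟩)))
    · exact Or.inr (Or.inr (Or.inr (Or.inl ((hD2 x).2 ⟨hx, h⟩))))
    · exact Or.inr (Or.inr (Or.inr (Or.inr (Or.inl ((hD3 x).2 ⟨hx, h⟩)))))
    · exact Or.inr (Or.inr (Or.inr (Or.inr (Or.inr ((hD4 x).2 ⟨hx, h⟩)))))
  clear hN hD0 hD1 hD2 hD3 hD4 hR
  obtain ⟨X0, E0, x0, s0, b0, m0⟩ := small D0
  obtain ⟨X1, E1, x1, s1, b1, m1⟩ := small D1
  obtain ⟨X2, E2, x2, s2, b2, m2⟩ := small D2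
  obtain ⟨X3, E3, x3, s3, b3, m3⟩ := small D3
  obtain ⟨X4, E4, x4, s4, b4, m4⟩ := small D4
  have hfin := main (cfgsub hcfg s0 s1 s2 s3 s4) b0 b1 b2 b3 b4
  refine bdel (X := X0 ∪ X1 ∪ X2 ∪ X3 ∪ X4) hfin ?_ ?_
  · have e1 := card_union_le (X0 ∪ X1 ∪ X2 ∪ X3) X4
    have e2 := card_union_le (X0 ∪ X1 ∪ X2) X3
    have e3 := card_union_le (X0 ∪ X1) X2
    have e4 := card_union_le X0 X1
    omega
  · exact cover hR' m0 m1 m2 m3 m4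

end Pool.Agent.H619R2.ND
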